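import Pool.Agent.Helper10.DY.G4c
import Pool.Agent.Helper89.DY.Gap4

/-!
# GAP4, label `(2,m,3)`: the assembly (MP_d13a5e_al)
-/

set_option autoImplicit false

namespace DY

open Set
open Pool.Agent.Helper62.DY (RT rt_of_tri)
open Pool.Agent.Helper32.DY (Two fm fw fe bf z1_nonneg z1_one)

variable {E : Type*} [AddCommGroup E] [Module ℝ E]
variable {Ψ : Set E} {B : E →ₗ[ℝ] E →ₗ[ℝ] ℝ} {ρ φ : E →ₗ[ℝ] ℝ} {t d1 d2 x x' : E}
variable {g x1 x2 g' x1' x2' : ℝ}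

/-- the lower bound from `foot` and `ult` -/
theorem ult_low10 {c r e : ℝ} (hf : -c ≤ r) (hu : 1 ≤ c → 0 ≤ 1 + r ^ 2 + 2 * c * r) (hc : 1 ≤ c)
    (he : e < c) (hq : 1 + e ^ 2 ≤ 2 * c * e) : -e ≤ r := by
  by_contra hcon
  have h1 := hu hc
  have h2 : (r + e) * (r - e + 2 * c) < 0 := mul_neg_of_neg_of_pos (by linarith) (by linarith)
  nlinarith

/-- no root in the plane of `t` and `d2` vanishes at `F` -/
theorem no_flat10 (L : Loc Ψ B ρ φ t d1 d2 x x') (e : x = g • t + x1 • d1 + x2 • d2)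
    (e' : x' = g' • t + x1' • d1 + x2' • d2) (h1 : 1 ≤ x1) (h1' : 1 ≤ x1') {α β : ℝ}
    (hm : α • t + β • d2 ∈ Ψ) (h0 : α + β * φ d2 = 0) : False := by
  have hφ : φ (α • t + β • d2) = 0 := by
    rw [map_add, map_smul, map_smul, L.ft]
    simp only [smul_eq_mul]
    linarith
  obtain ⟨a, b, h0'⟩ := L.sp _ hm
  have h : α • t + β • d2 = a • x + b • x' := by
    rw [hφ] at h0'
    rw [h0']
    module
  have h2 : α • t + (0 : ℝ) • d1 + β • d2 =
      (a * g + b * g') • t + (a * x1 + b * x1') • d1 + (a * x2 + b * x2') • d2 := by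
    have e0 : α • t + (0 : ℝ) • d1 + β • d2 = α • t + β • d2 := by module
    rw [e0, h, e, e']
    module
  obtain ⟨-, h3, -⟩ := L.tri.coordW h2
  rcases L.cxx _ hm a b h with (⟨k1, k2⟩ | ⟨k1, k2⟩ | ⟨k1, k2⟩) | (⟨k1, k2⟩ | ⟨k1, k2⟩ | ⟨k1, k2⟩)
  · rw [k1, k2] at h3
    linarith
  · rw [k1, k2] at h3
    linarith
  · nlinarith
  · have k3 : a = 0 := by linarith
    have k4 : b = -1 := by linarith
    rw [k3, k4] at h3
    linarith
  · have k3 : a = -1 := by linarith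
    have k4 : b = 0 := by linarith
    rw [k3, k4] at h3
    linarith
  · nlinarith

/-- the data of the fan -/
theorem Xs.two10 (X : Xs Ψ B ρ φ t d1 d2 x x' g x1 x2 g' x1' x2') {s : ℝ} (hb1 : B t d1 = 0)
    (hb0 : B d1 d2 = -(1 / 2)) (hs : -B t d2 = s / 2) :
    Two 0 (s / 2) (1 / 2) (fun g x1 x2 => g • t + x1 • d1 + x2 • d2 ∈ Ψ) (-φ d2) (φ d1)
      g' x1' x2' g x1 x2 := by
  have hR := rt_of_tri X.L.tri
  have hBxx := X.L.cxx.nonpos X.L.tri.sys X.L.xm X.L.xm'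
  rw [X.e, X.e', X.L.val_B, hb1, hb0] at hBxx
  have hs' : B t d2 = -(s / 2) := by linarith
  rw [hs'] at hBxx
  rw [hs, hb1, hb0] at hR
  norm_num at hR
  have ho := X.c.obt
  rw [hs, hb1] at ho
  exact
    { h := by
        norm_num
        exact hR
      hx := by
        show g' • t + x1' • d1 + x2' • d2 ∈ Ψ
        rw [← X.e']
        exact X.L.xm'
      hy := by
        show g • t + x1 • d1 + x2 • d2 ∈ Ψ
        rw [← X.e]
        exact X.L.xm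
      p1 := X.p1'
      v1 := X.p1
      p2 := X.p2'
      q2 := X.p2
      fx := by linarith [X.c'.fz]
      fy := by linarith [X.c.fz]
      hf := X.h1
      hκ := by linarith [X.h2]
      st := by linarith [X.st]
      hB := by
        unfold bf
        linarith
      obt := by linarith }

/-- `c_R = 0` or `c_R ≥ 1/2` -/
theorem Xs.cR10 (X : Xs Ψ B ρ φ t d1 d2 x x' g x1 x2 g' x1' x2') {s : ℝ} (hb1 : B t d1 = 0)
    (hs : -B t d2 = s / 2) : s * x2 - 2 * g = 0 ∨ 1 ≤ s * x2 - 2 * g := by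
  have h1 := X.L.tri.refl t X.L.tri.ha x X.L.xm
  have h2 : B t x = g - s / 2 * x2 := by
    have h3 := X.L.val_B 1 0 0 g x1 x2
    rw [one_smul, zero_smul, zero_smul, add_zero, add_zero] at h3
    have hs' : B t d2 = -(s / 2) := by linarith
    rw [X.e, h3, hb1, hs']
    ring
  have h3 : rf B t x = (1 : ℝ) • x + (s * x2 - 2 * g) • t := by
    unfold rf
    rw [h2]
    module
  have ho := X.c.obt
  rw [hs, hb1] at ho
  rw [h3] at h1
  rcases X.L.cxt _ h1 1 (s * x2 - 2 * g) rfl with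
    (⟨k1, k2⟩ | ⟨k1, k2⟩ | ⟨k1, k2⟩) | (⟨k1, k2⟩ | ⟨k1, k2⟩ | ⟨k1, k2⟩)
  · norm_num at k1
  · exact Or.inl k2
  · exact Or.inr k2
  · norm_num at k1
  · norm_num at k1
  · norm_num at k1

/-- `F` in the fan: the values are positive up to the index -/
theorem Xs.fm_pos10 (X : Xs Ψ B ρ φ t d1 d2 x x' g x1 x2 g' x1' x2') {s : ℝ} (hs : -B t d2 = s / 2)
    {k : ℕ} (hk : ∀ i < k, sq (-B t d2) (i + 1) * φ d2 + sq (-B t d2) i ≤ 0) :
    ∀ i ≤ k, 0 < fm (s / 2) (-φ d2) i := by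
  intro i hi
  cases i with
  | zero => exact one_pos
  | succ i =>
    have h1 := hk i (by omega)
    rw [hs] at h1
    have h2 : 0 ≤ fm (s / 2) (-φ d2) (i + 1) := by
      show 0 ≤ -φ d2 * sq (s / 2) (i + 1) - sq (s / 2) i
      linarith
    rcases h2.lt_or_eq with h3 | h3
    · exact h3
    · exfalso
      have h4 : -φ d2 * sq (s / 2) (i + 1) - sq (s / 2) i = 0 := h3.symm
      have hm := X.L.tri.cp'.mem i
      unfold pu at hm
      refine no_flat10 X.L X.e X.e' X.p1 X.p1' hm ?_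
      rw [hs]
      linarith

/-- **`(2,m,3)`, `s² ≤ 3`** -/
theorem Xs.g4_low (X : Xs Ψ B ρ φ t d1 d2 x x' g x1 x2 g' x1' x2') {s : ℝ} (hb1 : B t d1 = 0)
    (hb0 : B d1 d2 = -(1 / 2)) (hs : -B t d2 = s / 2) (hs0 : 0 < s) (hs3 : s ^ 2 ≤ 3)
    (hu : x1' ≤ x2') (hv : x1 < x2) (ha : 0 ≤ φ d1 + φ d2) : False := by
  have T := X.two10 hb1 hb0 hs
  obtain ⟨h3, hf⟩ := Pool.Agent.Helper10.DY.low T hs0 hs3 (X.cR10 hb1 hs) hu hv (by linarith)
  obtain ⟨H3, -, H4, -⟩ := X.le_one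
  have hstr := X.L.str_2
  refine Pool.Agent.Helper10.DY.aff T hs0 h3 (by linarith) hf (r1 := ρ d1) (r2 := ρ d2)
    (by linarith) (by linarith) ?_
  have hs17 : 17 / 10 < s := by nlinarith
  have hs18 : s < 9 / 5 := by nlinarith
  have q0 : sq (s / 2) 0 = 0 := rfl
  have q1 : sq (s / 2) 1 = 1 := rfl
  have q2 := Pool.Agent.Helper10.DY.sq2 s
  have q3 := Pool.Agent.Helper10.DY.sq3 s
  have q4 := Pool.Agent.Helper10.DY.sq4 s
  have q5 := Pool.Agent.Helper10.DY.sq5 s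
  have q6 := Pool.Agent.Helper10.DY.sq6 s
  have hs3' : s ^ 3 = 3 * s := by
    have : s ^ 3 = s * s ^ 2 := by ring
    rw [this, h3]
    ring
  have hs4' : s ^ 4 = 9 := by
    have : s ^ 4 = (s ^ 2) ^ 2 := by ring
    rw [this, h3]
    norm_num
  have hs5' : s ^ 5 = 9 * s := by
    have : s ^ 5 = s * (s ^ 2) ^ 2 := by ring
    rw [this, h3]
    ring
  rw [h3] at q3
  rw [hs3'] at q4
  rw [hs4', h3] at q5
  rw [hs5', hs3'] at q6
  rcases good_or_beyond (-B t d2) (φ d2) with ⟨k, hG⟩ | hG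
  · have hnk := hG.nk hstr X.h2
    have hk1 := hG.pos X.h2
    have hS := hG.hs
    rw [hs] at hnk hS
    have hk : k ≤ 4 := by
      by_contra hcon
      have h4 := hS 5 (by omega)
      have h5 : sq (s / 2) (5 + 1) = 0 := by
        have : sq (s / 2) 6 = 0 := by
          rw [q6]
          ring
        exact this
      rw [h5] at h4
      exact lt_irrefl _ h4
    have hpos := X.fm_pos10 hs hG.hm
    interval_cases k
    · left
      have h4 : 1 < sq (s / 2) 2 * ρ d2 + sq (s / 2) 1 := hnk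
      rw [q2, q1] at h4
      linarith
    · left
      have h4 : 1 < sq (s / 2) 3 * ρ d2 + sq (s / 2) 2 := hnk
      rw [q3, q2] at h4
      have h5 : (1 - s) / 2 < ρ d2 := by linarith
      have h6 : s * ((1 - s) / 2) < s * ρ d2 := mul_lt_mul_of_pos_left h5 hs0
      nlinarith
    · left
      have h4 : 1 < sq (s / 2) 4 * ρ d2 + sq (s / 2) 3 := hnk
      rw [q4, q3] at h4
      linarith
    · right
      left
      have h4 : 1 < sq (s / 2) 5 * ρ d2 + sq (s / 2) 4 := hnk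
      rw [q5, q4] at h4
      exact ⟨by linarith, hpos 3 (by norm_num), hpos 4 le_rfl⟩
  · right
    right
    have hfoot := hstr.foot
    have h4 := hG 4 (by
      intro i hi
      rw [hs]
      interval_cases i
      · show 0 < sq (s / 2) 1
        rw [q1]
        norm_num
      · show 0 < sq (s / 2) 2
        rw [q2]
        linarith
      · show 0 < sq (s / 2) 3
        rw [q3]
        norm_num
      · show 0 < sq (s / 2) 4
        rw [q4]
        linarith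
      · show 0 < sq (s / 2) 5
        rw [q5]
        norm_num)
    rw [hs] at h4 hfoot
    have h5 : sq (s / 2) 5 * φ d2 + sq (s / 2) 4 ≤ 0 := h4
    rw [q5, q4] at h5
    exact ⟨by linarith, by linarith⟩

/-- for `s² > 3` the seventh value is nonnegative -/
theorem Xs.g4_s (X : Xs Ψ B ρ φ t d1 d2 x x' g x1 x2 g' x1' x2') {s : ℝ}
    (hs : -B t d2 = s / 2) (hs0 : 0 < s) (hs3 : 3 < s ^ 2) :
    18016 / 10000 ≤ s ∧ 0 ≤ sq (s / 2) 7 ∧ ∀ i < 6, 0 < sq (s / 2) (i + 1) := by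
  have hC := X.L.tri.cp'
  rw [hs] at hC
  have q1 : sq (s / 2) 1 = 1 := rfl
  have q2 := Pool.Agent.Helper10.DY.sq2 s
  have q3 := Pool.Agent.Helper10.DY.sq3 s
  have q4 := Pool.Agent.Helper10.DY.sq4 s
  have q5 := Pool.Agent.Helper10.DY.sq5 s
  have q6 := Pool.Agent.Helper10.DY.sq6 s
  have q7 := Pool.Agent.Helper10.DY.sq7 s
  have p6 : 0 < sq (s / 2) 6 := by
    rw [q6]
    have e : s ^ 5 - 4 * s ^ 3 + 3 * s = s * ((s ^ 2 - 1) * (s ^ 2 - 3)) := by ring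
    rw [e]
    exact mul_pos hs0 (mul_pos (by linarith) (by linarith))
  have h7 : 0 ≤ sq (s / 2) 7 := by
    rcases hC.sq_next (n := 6) p6 with h | h
    · exact h.ge
    · have : 1 ≤ sq (s / 2) 7 := h
      linarith
  refine ⟨?_, h7, ?_⟩
  · have hu := Pool.Agent.Helper10.DY.u_low (u := s ^ 2 - 1) (by linarith) (by
      rw [q7] at h7
      have e : (s ^ 2 - 1) ^ 3 - 2 * (s ^ 2 - 1) ^ 2 - (s ^ 2 - 1) + 1 =
          s ^ 6 - 5 * s ^ 4 + 6 * s ^ 2 - 1 := by ring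
      rw [e]
      exact h7)
    by_contra hcon
    nlinarith
  · intro i hi
    interval_cases i
    · show 0 < sq (s / 2) 1
      rw [q1]
      norm_num
    · show 0 < sq (s / 2) 2
      rw [q2]
      exact hs0
    · show 0 < sq (s / 2) 3
      rw [q3]
      linarith
    · show 0 < sq (s / 2) 4
      rw [q4]
      have e : s ^ 3 - 2 * s = s * (s ^ 2 - 2) := by ring
      rw [e]
      exact mul_pos hs0 (by linarith)
    · show 0 < sq (s / 2) 5
      rw [q5]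
      nlinarith
    · exact p6

/-- the value at `v* = (s² - 1; s, s³ - s)` -/
theorem Xs.g4_v (X : Xs Ψ B ρ φ t d1 d2 x x' g x1 x2 g' x1' x2') {s : ℝ} (hb1 : B t d1 = 0)
    (hb0 : B d1 d2 = -(1 / 2)) (hs : -B t d2 = s / 2) (hs1 : 18016 / 10000 ≤ s) {e : ℝ}
    (he : e < (s ^ 2 - 1) * (s ^ 2 - 2) / 2) (hq : 1 + e ^ 2 ≤ (s ^ 2 - 1) * (s ^ 2 - 2) * e) :
    -e ≤ (s ^ 2 - 1) + s * ρ d1 + (s ^ 3 - s) * ρ d2 := by
  have T := X.two10 hb1 hb0 hs
  have hm : (s ^ 2 - 1) • t + s • d1 + (s ^ 3 - s) • d2 ∈ Ψ := Pool.Agent.Helper10.DY.vs_mem T.h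
  have hs2 : 3 < s ^ 2 := by nlinarith
  have hs3 : 1 ≤ s ^ 3 - s := by nlinarith
  have hne : (s ^ 2 - 1) • t + s • d1 + (s ^ 3 - s) • d2 ≠ t := by
    intro h
    obtain ⟨-, h1, -⟩ := X.L.tri.indep (s ^ 2 - 1 - 1) s (s ^ 3 - s) (by
      have : (s ^ 2 - 1 - 1) • t + s • d1 + (s ^ 3 - s) • d2 =
        ((s ^ 2 - 1) • t + s • d1 + (s ^ 3 - s) • d2) - t := by module
      rw [this, h, sub_self])
    linarith
  have hstr := X.L.str _ hm ⟨_, _, _, rfl, Or.inr (by linarith), Or.inr (by linarith), Or.inr hs3⟩ hne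
  have e1 : -B t ((s ^ 2 - 1) • t + s • d1 + (s ^ 3 - s) • d2) =
      (s ^ 2 - 1) * (s ^ 2 - 2) / 2 := by
    have h3 := X.L.val_B 1 0 0 (s ^ 2 - 1) s (s ^ 3 - s)
    rw [one_smul, zero_smul, zero_smul, add_zero, add_zero] at h3
    have hs' : B t d2 = -(s / 2) := by linarith
    rw [h3, hb1, hs']
    ring
  have e2 : ρ ((s ^ 2 - 1) • t + s • d1 + (s ^ 3 - s) • d2) =
      (s ^ 2 - 1) + s * ρ d1 + (s ^ 3 - s) * ρ d2 := X.L.val_ρ _ _ _
  rw [e1, e2] at hstr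
  refine ult_low10 hstr.foot hstr.ult ?_ he (by linarith)
  nlinarith

/-- **`(2,m,3)`, index five or six** -/
theorem Xs.g4_mid (X : Xs Ψ B ρ φ t d1 d2 x x' g x1 x2 g' x1' x2') {s : ℝ} (hb1 : B t d1 = 0)
    (hb0 : B d1 d2 = -(1 / 2)) (hs : -B t d2 = s / 2) (hs0 : 0 < s) (hs2 : s ≤ 2)
    (hs3 : 3 < s ^ 2) (ha : 0 ≤ φ d1 + φ d2) {k : ℕ} (hG : Good (-B t d2) (φ d2) k)
    (hk : k = 4 ∨ k = 5) : False := by
  have T := X.two10 hb1 hb0 hs
  obtain ⟨hs1, h7, hS⟩ := X.g4_s hs hs0 hs3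
  obtain ⟨H3, -, -, -⟩ := X.le_one
  have hnk := hG.nk X.L.str_2 X.h2
  have hpos := X.fm_pos10 hs hG.hm
  have hp := hG.hpos
  have hK : ¬ (sq (-B t d2) (k + 1) * x1' ≤
      (1 - (sq (-B t d2) (k + 1) * φ d2 + sq (-B t d2) k)) * (x2 * x1' - x1 * x2')) := fun h =>
    X.kcrit hG.hs hG.hm hG.hpos h
  rw [not_le] at hK
  rw [hs] at hnk hp hK
  have hu := Pool.Agent.Helper10.DY.u_low (u := s ^ 2 - 1) (by linarith) (by
      rw [Pool.Agent.Helper10.DY.sq7] at h7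
      have e : (s ^ 2 - 1) ^ 3 - 2 * (s ^ 2 - 1) ^ 2 - (s ^ 2 - 1) + 1 =
          s ^ 6 - 5 * s ^ 4 + 6 * s ^ 2 - 1 := by ring
      rw [e]
      exact h7)
  rcases hk with rfl | rfl
  · have h5 : fm (s / 2) (-φ d2) 5 = -(sq (s / 2) (4 + 1) * φ d2 + sq (s / 2) 4) := by
      show -φ d2 * sq (s / 2) 5 - sq (s / 2) 4 = _
      ring
    refine Pool.Agent.Helper10.DY.five T hs1 hs2 (by linarith) hpos (by rw [h5]; linarith) ?_
      (r1 := ρ d1) (r2 := ρ d2) hnk (X.g4_v hb1 hb0 hs hs1 ?_ ?_) (by linarith)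
    · rw [h5]
      have e : sq (s / 2) 5 * x1' = sq (s / 2) (4 + 1) * x1' := rfl
      rw [e]
      linarith
    · nlinarith
    · nlinarith
  · have h6 : fm (s / 2) (-φ d2) 6 = -(sq (s / 2) (5 + 1) * φ d2 + sq (s / 2) 5) := by
      show -φ d2 * sq (s / 2) 6 - sq (s / 2) 5 = _
      ring
    have hu0 : 0 < s ^ 2 - 1 := by linarith
    refine Pool.Agent.Helper10.DY.six T hs1 hs2 h7 (by linarith) hpos (by rw [h6]; linarith) ?_
      (r1 := ρ d1) (r2 := ρ d2) hnk ?_ (by linarith)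
    · rw [h6]
      have e : sq (s / 2) 6 * x1' = sq (s / 2) (5 + 1) * x1' := rfl
      rw [e]
      linarith
    · have h8 := X.g4_v hb1 hb0 hs hs1 (e := 1 / (s ^ 2 - 1)) ?_ ?_
      · have h9 : (s ^ 2 - 1) * (-(1 / (s ^ 2 - 1))) ≤
            (s ^ 2 - 1) * ((s ^ 2 - 1) + s * ρ d1 + (s ^ 3 - s) * ρ d2) :=
          mul_le_mul_of_nonneg_left h8 hu0.le
        have h10 : (s ^ 2 - 1) * (-(1 / (s ^ 2 - 1))) = -1 := by field_simp
        rw [h10] at h9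
        exact h9
      · have h9 : 1 / (s ^ 2 - 1) < 1 := by
          rw [div_lt_one hu0]
          linarith
        nlinarith
      · obtain ⟨u, hu'⟩ : ∃ u, u = s ^ 2 - 1 := ⟨_, rfl⟩
        have hu2 : s ^ 2 - 2 = u - 1 := by linarith
        rw [← hu', hu2]
        rw [← hu'] at hu hu0
        have e1 : u * (u - 1) * (1 / u) = u - 1 := by field_simp
        rw [e1]
        have e2 : 1 + (1 / u) ^ 2 = (u ^ 2 + 1) / u ^ 2 := by field_simp
        rw [e2, div_le_iff₀ (by positivity)]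
        have h9 : 0 ≤ u ^ 3 - 2 * u ^ 2 - u + 1 := by
          rw [Pool.Agent.Helper10.DY.sq7] at h7
          have e : u ^ 3 - 2 * u ^ 2 - u + 1 = s ^ 6 - 5 * s ^ 4 + 6 * s ^ 2 - 1 := by
            rw [hu']
            ring
          rw [e]
          exact h7
        nlinarith

/-- helper8: index at most four -/
def G4Four (Ψ : Set E) (B : E →ₗ[ℝ] E →ₗ[ℝ] ℝ) : Prop :=
  ∀ (ρ φ : E →ₗ[ℝ] ℝ) (t d1 d2 x x' : E) (g x1 x2 g' x1' x2' : ℝ),
    Xs Ψ B ρ φ t d1 d2 x x' g x1 x2 g' x1' x2' → B t d1 = 0 → B d1 d2 = -(1 / 2) →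
    -B t d2 ≤ 1 → 0 ≤ φ d1 + φ d2 → ∀ k ≤ 3, Good (-B t d2) (φ d2) k → False

/-- helper8: index at least seven or beyond -/
def G4Seven (Ψ : Set E) (B : E →ₗ[ℝ] E →ₗ[ℝ] ℝ) : Prop :=
  ∀ (ρ φ : E →ₗ[ℝ] ℝ) (t d1 d2 x x' : E) (g x1 x2 g' x1' x2' : ℝ),
    Xs Ψ B ρ φ t d1 d2 x x' g x1 x2 g' x1' x2' → B t d1 = 0 → B d1 d2 = -(1 / 2) →
    -B t d2 ≤ 1 → 0 ≤ φ d1 + φ d2 → 3 < (2 * -B t d2) ^ 2 → 0 ≤ sq (-B t d2) 7 →
    (∀ i < 6, 0 < sq (-B t d2) (i + 1)) →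
    ((∃ k, 6 ≤ k ∧ Good (-B t d2) (φ d2) k) ∨ Beyond (-B t d2) (φ d2)) → False

/-- **GAP4** -/
theorem gap4_of10 (h4 : G4Four Ψ B) (h7 : G4Seven Ψ B) : GAP4 Ψ B := by
  refine gap4_of ?_
  rintro ρ φ t d1 d2 x x' g x1 x2 g' x1' x2' al1 al2 be1 be2 X O ⟨hb1, hb0, rfl, rfl, rfl, rfl, hb2, hb3⟩
    u0 u0' v0 v0'
  have ha : 0 ≤ φ d1 + φ d2 := by linarith [O.fa]
  obtain ⟨s, hs⟩ : ∃ s, -B t d2 = s / 2 := ⟨2 * -B t d2, by ring⟩
  have hs0 : 0 < s := by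
    have h1 := X.L.lbl.z2
    rw [hs] at h1
    rcases h1 with h1 | h1
    · exfalso
      have : B t d2 = 0 := by linarith
      rw [this] at hb3
      norm_num at hb3
    · linarith
  rcases le_or_gt (s ^ 2) 3 with h3 | h3
  · exact X.g4_low hb1 hb0 hs hs0 h3 (by linarith) (by linarith) ha
  · obtain ⟨hs1, hs7, hS⟩ := X.g4_s hs hs0 h3
    rcases good_or_beyond (-B t d2) (φ d2) with ⟨k, hG⟩ | hG
    · rcases le_or_gt k 3 with hk | hk
      · exact h4 _ _ _ _ _ _ _ _ _ _ _ _ _ X hb1 hb0 hb2 ha k hk hG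
      · rcases le_or_gt k 5 with hk' | hk'
        · exact X.g4_mid hb1 hb0 hs hs0 (by linarith) h3 ha hG (by omega)
        · refine h7 _ _ _ _ _ _ _ _ _ _ _ _ _ X hb1 hb0 hb2 ha ?_ ?_ ?_ (Or.inl ⟨k, hk', hG⟩)
          · rw [hs]
            nlinarith
          · rw [hs]
            exact hs7
          · rw [hs]
            exact hS
    · refine h7 _ _ _ _ _ _ _ _ _ _ _ _ _ X hb1 hb0 hb2 ha ?_ ?_ ?_ (Or.inr hG)
      · rw [hs]
        nlinarith
      · rw [hs]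
        exact hs7
      · rw [hs]
        exact hS

end DY
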