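import Mathlib

/-!
# GAP4, label `(2,m,3)`: the real inequalities for the indices five and six (MP_d13a5e_al)

`s = 2 b2`, `u = s² - 1`.  `W, Z` are the fan values `e_(j-1), e_j` of the steeper root, `x` its coefficient at
`d1`; `p = -φ(u_(j-1)) > 0`, `q = φ(u_j) > 0`.
-/

set_option autoImplicit false

namespace Pool.Agent.Helper10.DY

/-- `u ≥ 2.246` if the seventh Chebyshev value is nonnegative -/
theorem u_low {u : ℝ} (h2 : 2 < u) (h7 : 0 ≤ u ^ 3 - 2 * u ^ 2 - u + 1) : 2246 / 1000 ≤ u := by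
  by_contra hcon
  have hcon := not_le.1 hcon
  nlinarith only [h2, h7, mul_pos (by linarith only [h2] : 0 < u - 2) (by linarith only [hcon] : 0 < 2246 / 1000 - u)]

/-- index five -/
theorem five_real {s x W Z p q : ℝ} (hs1 : 18016 / 10000 ≤ s) (hs2 : s ≤ 2) (hx : 1 ≤ x)
    (hW : x + 1 ≤ W) (hp : 0 < p) (hq : 0 < q)
    (hK : (s ^ 4 - 3 * s ^ 2 + 1) * p + (s ^ 3 - 2 * s - 1) * q <
      (s ^ 4 - 3 * s ^ 2 + 1) * (p * (W - s / 2 * Z - x / 2) + q * (s / 2 * W - Z)))
    (ha : q * (W - x) ≤ p * (s * x - Z))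
    (hC : s * (s ^ 2 + s - 1) * (W - 1) <
      s * (s + 1) * Z + (1 + 3 / 7 * (s ^ 2 + s - 1)) * x) : False := by
  obtain ⟨d, hd⟩ : ∃ d, d = s ^ 2 + s - 1 := ⟨_, rfl⟩
  rw [← hd] at hC
  have hd' : 0 < s ^ 2 - s - 1 := by nlinarith only [hs1]
  have hdp : 4 < d := by rw [hd]; nlinarith
  -- `K`
  have hK1 : d * p + (s + 1) * q < d * (p * (W - s / 2 * Z - x / 2) + q * (s / 2 * W - Z)) := by
    have h1 : (s ^ 2 - s - 1) * (d * p + (s + 1) * q) <
        (s ^ 2 - s - 1) * (d * (p * (W - s / 2 * Z - x / 2) + q * (s / 2 * W - Z))) := by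
      have e1 : (s ^ 2 - s - 1) * d = s ^ 4 - 3 * s ^ 2 + 1 := by rw [hd]; ring
      have e2 : (s ^ 2 - s - 1) * (s + 1) = s ^ 3 - 2 * s - 1 := by ring
      have e3 : (s ^ 2 - s - 1) * (d * p + (s + 1) * q) =
          (s ^ 4 - 3 * s ^ 2 + 1) * p + (s ^ 3 - 2 * s - 1) * q := by
        linear_combination p * e1 + q * e2
      have e4 : (s ^ 2 - s - 1) * (d * (p * (W - s / 2 * Z - x / 2) + q * (s / 2 * W - Z))) =
          (s ^ 4 - 3 * s ^ 2 + 1) * (p * (W - s / 2 * Z - x / 2) + q * (s / 2 * W - Z)) := by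
        linear_combination (p * (W - s / 2 * Z - x / 2) + q * (s / 2 * W - Z)) * e1
      rw [e3, e4]
      exact hK
    exact lt_of_mul_lt_mul_left h1 hd'.le
  obtain ⟨A, hA⟩ : ∃ A, A = d * (s / 2 * W - Z) - (s + 1) := ⟨_, rfl⟩
  obtain ⟨Y, hY⟩ : ∃ Y, Y = d * (1 - W + s / 2 * Z + x / 2) := ⟨_, rfl⟩
  have hK2 : p * Y < q * A := by
    rw [hA, hY]
    nlinarith
  -- `(a)`
  have h1 : s / 2 * (W - 1) < Z := by
    have e1 : (3 / 7) * d ≤ (s + 1) * (s ^ 2 - 2) / 2 := by
      rw [hd]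
      nlinarith only [hd', mul_nonneg (by linarith only [hs1] : 0 ≤ s - 18016 / 10000) (sq_nonneg s),
        mul_nonneg (by linarith only [hs1] : 0 ≤ s - 18016 / 10000) (by linarith only [hs1] : 0 ≤ s)]
    have e2 : (1 + 3 / 7 * d) * x ≤ (1 + 3 / 7 * d) * (W - 1) :=
      mul_le_mul_of_nonneg_left (by linarith only [hW]) (by linarith only [hdp])
    have e3 : (s * d - 1 - 3 / 7 * d) * (W - 1) < s * (s + 1) * Z := by linarith only [hC, e2]
    have e4 : s * (s + 1) * (s / 2) ≤ s * d - 1 - 3 / 7 * d := by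
      have : s * d = s ^ 3 + s ^ 2 - s := by rw [hd]; ring
      nlinarith only [e1, this]
    have e5 : s * (s + 1) * (s / 2) * (W - 1) ≤ (s * d - 1 - 3 / 7 * d) * (W - 1) :=
      mul_le_mul_of_nonneg_right e4 (by linarith only [hx, hW])
    have e6 : s * (s + 1) * (s / 2 * (W - 1)) < s * (s + 1) * Z := by linarith only [e3, e5]
    exact lt_of_mul_lt_mul_left e6 (by positivity)
  have hZ : s / 2 * x < Z := by
    have : s / 2 * x ≤ s / 2 * (W - 1) := mul_le_mul_of_nonneg_left (by linarith only [hW]) (by linarith only [hs1])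
    linarith only [h1, this]
  obtain ⟨m, hm⟩ : ∃ m, m = s * d / 2 - (s + 1) := ⟨_, rfl⟩
  have hm0 : 0 < m := by rw [hm]; nlinarith
  -- lower bound of `Y`
  have hY1 : m * (s / 2 * x) < Y := by
    have e1 : s * (m * Z) + (s * d / 2 - 1 - 3 / 7 * d) * x < s * Y := by
      rw [hY, hm]
      nlinarith only [hC]
    have e2 : 0 ≤ (s * d / 2 - 1 - 3 / 7 * d) * x := mul_nonneg (by nlinarith only [hs1, hd]) (by linarith only [hx])
    have e3 : s * (m * Z) < s * Y := by linarith only [e1, e2]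
    have e4 : m * Z < Y := lt_of_mul_lt_mul_left e3 (by linarith only [hs1])
    have e5 : m * (s / 2 * x) ≤ m * Z := mul_le_mul_of_nonneg_left hZ.le hm0.le
    linarith only [e4, e5]
  have hY0 : 0 < Y := by
    have : 0 ≤ m * (s / 2 * x) := by positivity
    linarith only [hY1, this]
  have hA0 : 0 < A := by
    have h2 : 0 < p * Y := mul_pos hp hY0
    exact (mul_pos_iff_of_pos_left hq).1 (by linarith only [hK2, h2])
  have hA1 : A < m := by
    have e1 : d * (s / 2 * W - Z) < d * (s / 2) := mul_lt_mul_of_pos_left (by linarith only [h1]) (by linarith only [hdp])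
    rw [hA, hm]
    linarith only [e1]
  have hc0 : 0 < q * (W - x) := mul_pos hq (by linarith only [hW])
  -- product
  have h3 : (p * Y) * (q * (W - x)) < (q * A) * (p * (s * x - Z)) := by
    have e1 : (p * Y) * (q * (W - x)) < (q * A) * (q * (W - x)) := mul_lt_mul_of_pos_right hK2 hc0
    have e2 : (q * A) * (q * (W - x)) ≤ (q * A) * (p * (s * x - Z)) :=
      mul_le_mul_of_nonneg_left ha (mul_pos hq hA0).le
    linarith only [e1, e2]
  have h4 : Y * (W - x) < A * (s * x - Z) := by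
    have e1 : (p * q) * (Y * (W - x)) < (p * q) * (A * (s * x - Z)) := by
      have e2 : (p * q) * (Y * (W - x)) = (p * Y) * (q * (W - x)) := by ring
      have e3 : (p * q) * (A * (s * x - Z)) = (q * A) * (p * (s * x - Z)) := by ring
      rw [e2, e3]
      exact h3
    exact lt_of_mul_lt_mul_left e1 (mul_pos hp hq).le
  have h5 : Y ≤ Y * (W - x) := by nlinarith only [hW, hY0]
  have h6 : 0 < s * x - Z := by
    by_contra hcon
    have := mul_nonpos_of_nonneg_of_nonpos hA0.le (not_lt.1 hcon)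
    linarith only [hY0, h4, h5, this]
  have h7 : A * (s * x - Z) ≤ m * (s / 2 * x) := by
    have e1 : A * (s * x - Z) ≤ m * (s * x - Z) := mul_le_mul_of_nonneg_right hA1.le h6.le
    have e2 : m * (s * x - Z) ≤ m * (s / 2 * x) := mul_le_mul_of_nonneg_left (by linarith only [hZ]) hm0.le
    linarith only [e1, e2]
  linarith only [hY1, h4, h5, h7]

/-- index five: the steeper root is steeper than `v*` -/
theorem five_X {s u x W Z : ℝ} (hu : s ^ 2 = u + 1) (hu2 : 2 < u) (hs : 0 < s) (hx : 1 ≤ x)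
    (hW : 0 ≤ W) (h1 : Z ≤ s / 2 * W) (h2 : Z ≤ s * x) :
    0 < (u ^ 2 - u - 1) * W - s * (u - 1) * Z + x := by
  by_cases hc : 0 ≤ u ^ 2 - 2 * u - 1
  · have e1 : s * (u - 1) * Z ≤ s * (u - 1) * (s / 2 * W) :=
      mul_le_mul_of_nonneg_left h1 (mul_nonneg hs.le (by linarith only [hu2]))
    have e2 : s * (u - 1) * (s / 2 * W) = (u + 1) * (u - 1) / 2 * W := by
      linear_combination ((u - 1) / 2 * W) * hu
    have e3 : 0 ≤ (u ^ 2 - 2 * u - 1) * W := mul_nonneg hc hW
    nlinarith only [hx, e1, e2, e3]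
  · have hc := not_le.1 hc
    have e1 : (2 * (u ^ 2 - u - 1)) * Z ≤ (2 * (u ^ 2 - u - 1)) * (s / 2 * W) :=
      mul_le_mul_of_nonneg_left h1 (by nlinarith only [hu2])
    have e2 : (-(u ^ 2 - 2 * u - 1)) * Z ≤ (-(u ^ 2 - 2 * u - 1)) * (s * x) :=
      mul_le_mul_of_nonneg_left h2 (by linarith only [hc])
    have e3 : (u ^ 2 - 1) * Z ≤ s * ((u ^ 2 - u - 1) * W - (u ^ 2 - 2 * u - 1) * x) := by
      nlinarith only [e1, e2]
    have e4 : s * (s * (u - 1) * Z) = (u ^ 2 - 1) * Z := by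
      linear_combination ((u - 1) * Z) * hu
    have e5 : s * (s * (u - 1) * Z) ≤ s * ((u ^ 2 - u - 1) * W - (u ^ 2 - 2 * u - 1) * x) := by
      rw [e4]
      exact e3
    have e6 := le_of_mul_le_mul_left e5 hs
    have e7 : 0 < u * (u - 2) * x := by
      have : 0 < u * (u - 2) := mul_pos (by linarith only [hu2]) (by linarith only [hu2])
      positivity
    nlinarith only [e6, e7]

/-- index six -/
theorem six_real {s u x W Z p q : ℝ} (hu : s ^ 2 = u + 1) (hu2 : 2 < u) (hs : 0 < s) (hs2 : s ≤ 2)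
    (hx : 1 ≤ x) (hW : 1 ≤ W) (hZ : Z = x ∨ x + 1 ≤ Z)
    (hN : Z ^ 2 + W ^ 2 + x ^ 2 - s * W * Z - Z * x = 1) (hp : 0 < p) (hq : 0 < q)
    (hK : u * p + s * q < u * (p * (W - s / 2 * Z) + q * ((s * W + x) / 2 - Z)))
    (hC : s * u * W - s ^ 2 * Z + (u - 1) * x ≤ s * u) : False := by
  have hsu : 0 < s * u := by positivity
  -- `1 - Q0 > 0`
  have h1 : 0 < 1 - (W - s / 2 * Z) := by
    have hZx : x ≤ Z := by
      rcases hZ with h | h <;> linarith only [h]
    have e1 : s * u * (1 - (W - s / 2 * Z)) = s * u - s * u * W + s ^ 2 * (u / 2) * Z := by ring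
    have e2 : 0 < s ^ 2 * (u / 2 - 1) * Z := by
      have : 0 < Z := by linarith only [hx, hZx]
      have : 0 < u / 2 - 1 := by linarith only [hu2]
      positivity
    have e3 : 0 < (u - 1) * x := mul_pos (by linarith only [hu2]) (by linarith only [hx])
    have e4 : 0 < s * u * (1 - (W - s / 2 * Z)) := by
      rw [e1]
      nlinarith only [hC, e2, e3]
    exact (mul_pos_iff_of_pos_left hsu).1 e4
  have h2 : 0 < u * ((s * W + x) / 2 - Z) - s := by
    have e1 : 0 < u * p * (1 - (W - s / 2 * Z)) := by positivity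
    have e2 : 0 < q * (u * ((s * W + x) / 2 - Z) - s) := by nlinarith only [hK, e1]
    exact (mul_pos_iff_of_pos_left hq).1 e2
  have h3 : (u - 1) * Z < s * (u - 2) + x := by nlinarith only [hu, hs, hW, hC, h1, h2]
  rcases hZ with hZ | hZ
  · subst hZ
    have h4 : Z < s := by
      have e1 : (u - 2) * Z < (u - 2) * s := by linarith only [h3]
      exact lt_of_mul_lt_mul_left e1 (by linarith only [hu2])
    have hN' : W ^ 2 - s * W * Z + Z ^ 2 = 1 := by linarith only [hN]
    have hC' : s * u * W ≤ s * u + 2 * Z := by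
      rw [hu] at hC
      linarith
    -- `f(1) < 0` and `f(1 + β Z) < 0`, `s u β = 2`
    obtain ⟨β, hβ⟩ : ∃ β, β = 2 / (s * u) := ⟨_, rfl⟩
    have hβ' : s * u * β = 2 := by rw [hβ]; field_simp
    have hβ0 : 0 < β := by rw [hβ]; positivity
    have hW2 : W ≤ 1 + β * Z := by
      have e1 : s * u * W ≤ s * u * (1 + β * Z) := by
        have : s * u * (1 + β * Z) = s * u + (s * u * β) * Z := by ring
        rw [this, hβ']
        exact hC'
      exact le_of_mul_le_mul_left e1 hsu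
    have f1 : Z ^ 2 - s * Z < 0 := by nlinarith only [hx, h4]
    have f2 : (1 + β * Z) ^ 2 - s * (1 + β * Z) * Z + Z ^ 2 - 1 < 0 := by
      have e1 : (1 + β * Z) ^ 2 - s * (1 + β * Z) * Z + Z ^ 2 - 1 =
          Z * ((2 * β - s) + Z * (β ^ 2 - s * β + 1)) := by ring
      rw [e1]
      apply mul_neg_of_pos_of_neg (by linarith only [hx])
      have e2 : (s * u) ^ 2 * ((2 * β - s) + Z * (β ^ 2 - s * β + 1)) =
          (4 * (s * u) - s * (u + 1) * u ^ 2) + Z * (u ^ 3 - u ^ 2 - 2 * u + 4) := by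
        have g1 : (s * u) ^ 2 * β = 2 * (s * u) := by linear_combination (s * u) * hβ'
        have g2 : (s * u) ^ 2 * β ^ 2 = 4 := by
          have : (s * u) ^ 2 * β ^ 2 = (s * u * β) ^ 2 := by ring
          rw [this, hβ']
          norm_num
        have g3 : (s * u) ^ 2 * (s * β) = 2 * (u + 1) * u := by
          linear_combination (s * (s * u)) * hβ' + 2 * u * hu
        linear_combination 2 * g1 + Z * g2 - Z * g3 + (-(s * u ^ 2) + Z * u ^ 2) * hu
      have e3 : 0 < u ^ 3 - u ^ 2 - 2 * u + 4 := by nlinarith only [h3, h4, mul_pos (by linarith only [hu2] : 0 < u) (by linarith only [hu2] : 0 < u - 2)]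
      have e4 : Z * (u ^ 3 - u ^ 2 - 2 * u + 4) < s * (u ^ 3 - u ^ 2 - 2 * u + 4) :=
        mul_lt_mul_of_pos_right h4 e3
      have e5 : (4 * (s * u) - s * (u + 1) * u ^ 2) + s * (u ^ 3 - u ^ 2 - 2 * u + 4) =
          -(2 * s * ((u - 2) * (u + 1))) := by ring
      have e6 : 0 < 2 * s * ((u - 2) * (u + 1)) := by
        have : 0 < u - 2 := by linarith only [hu2]
        positivity
      have e7 : (s * u) ^ 2 * ((2 * β - s) + Z * (β ^ 2 - s * β + 1)) < 0 := by
        rw [e2]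
        linarith only [e4, e6]
      by_contra hcon
      have := mul_nonneg (sq_nonneg (s * u)) (not_lt.1 hcon)
      linarith only [e7, this]
    have f3 : (W - 1) * (W - (1 + β * Z)) ≤ 0 :=
      mul_nonpos_of_nonneg_of_nonpos (by linarith only [hW]) (by linarith only [hW2])
    rcases le_total 0 (2 + β * Z - s * Z) with h5 | h5
    · have := mul_nonneg h5 (by linarith only [hW2] : 0 ≤ 1 + β * Z - W)
      nlinarith only [hN', f2, f3, this]
    · have := mul_nonneg (by linarith only [h5] : 0 ≤ -(2 + β * Z - s * Z)) (by linarith only [hW] : 0 ≤ W - 1)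
      nlinarith only [hN', f1, f3, this]
  · have h5 : (u - 1) * (x + 1) ≤ (u - 1) * Z := mul_le_mul_of_nonneg_left hZ (by linarith only [hu2])
    have h6 : s * (u - 2) ≤ 2 * (u - 2) := mul_le_mul_of_nonneg_right hs2 (by linarith only [hu2])
    have h7 : (u - 2) * 1 ≤ (u - 2) * x := mul_le_mul_of_nonneg_left hx (by linarith only [hu2])
    nlinarith only [h3, h5, h6, h7]

/-- index six: the steeper root is steeper than `v*` -/
theorem six_X {s u x W Z p q : ℝ} (hu : s ^ 2 = u + 1) (hu2 : 2 < u) (hs : 0 < s)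
    (h7 : 0 ≤ u ^ 3 - 2 * u ^ 2 - u + 1) (hx : 1 ≤ x) (hW : 1 ≤ W) (hp : 0 < p) (hq : 0 < q)
    (h1 : 2 * Z ≤ s * W + x) (ha : q * (W - s * x) ≤ p * (s ^ 2 * x - Z)) :
    0 ≤ s * u * (u - 2) * W - (u ^ 2 - u - 1) * Z + (u ^ 2 - u) * x := by
  have h2 : Z ≤ (u + 1) * x := by
    rcases le_total W (s * x) with h | h
    · have e1 : s * W ≤ s * (s * x) := mul_le_mul_of_nonneg_left h hs.le
      have e2 : s * (s * x) = (u + 1) * x := by linear_combination x * hu
      nlinarith only [hu, hu2, hx, h1, e1]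
    · have e1 : 0 ≤ q * (W - s * x) := mul_nonneg hq.le (by linarith only [h])
      have e2 : 0 ≤ s ^ 2 * x - Z := by
        by_contra hcon
        have := mul_neg_of_pos_of_neg hp (not_le.1 hcon)
        linarith only [ha, e1, this]
      rw [hu] at e2
      linarith only [e2]
  by_cases hc : 0 ≤ -u ^ 2 + 3 * u - 1
  · have e1 : (u * (u - 2)) * (2 * Z) ≤ (u * (u - 2)) * (s * W + x) :=
      mul_le_mul_of_nonneg_left h1 (mul_nonneg (by linarith only [hu2]) (by linarith only [hu2]))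
    have e2 : (-u ^ 2 + 3 * u - 1) * Z ≤ (-u ^ 2 + 3 * u - 1) * ((u + 1) * x) :=
      mul_le_mul_of_nonneg_left h2 hc
    have e3 : 0 ≤ (u ^ 3 - 2 * u ^ 2 - u + 1) * x := mul_nonneg h7 (by linarith only [hx])
    nlinarith only [e1, e2, e3]
  · have hc := not_le.1 hc
    have e1 : (u ^ 2 - u - 1) * (2 * Z) ≤ (u ^ 2 - u - 1) * (s * W + x) :=
      mul_le_mul_of_nonneg_left h1 (by nlinarith only [hu2])
    have e2 : 0 ≤ (-(-u ^ 2 + 3 * u - 1)) * (s * W) := mul_nonneg (by linarith only [hc]) (by positivity)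
    have e3 : 0 ≤ (u ^ 2 - u + 1) * x := mul_nonneg (by nlinarith only []) (by linarith only [hx])
    nlinarith only [e1, e2, e3]

end Pool.Agent.Helper10.DY
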