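import Pool.Agent.Helper10.DY.G4a
import Pool.Agent.Helper32.DY.Ineq
import Pool.Agent.Helper9.DY.K
import Pool.Agent.Helper9.DY.NG

/-!
# GAP4, label `(2,m,3)`: the indices five and six (MP_d13a5e_al)
-/

set_option autoImplicit false

namespace Pool.Agent.Helper10.DY

open _root_.DY (Z1 sq)
open Pool.Agent.Helper62.DY (RT)
open Pool.Agent.Helper32.DY (Two fm fw fe bf z1_nonneg z1_one fe_r fe_n)

section

variable {b1 b2 bO s : ℝ} {R : ℝ → ℝ → ℝ → Prop} {κ f g x1 x2 g' v y2 : ℝ}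

/-- `B(y, κ t + d2)` -/
theorem beta (T : Two b1 b2 bO R κ f g x1 x2 g' v y2) :
    2 * x1 ≤ (y2 * x1 - x2 * v) * ((2 * y2 - 2 * b2 * g' - 2 * bO * v) -
      κ * (2 * b1 * v + 2 * b2 * y2 - 2 * g')) := by
  have hn := T.h.n _ _ _ T.hy
  have h1 : (y2 * x1 - x2 * v) * ((2 * y2 - 2 * b2 * g' - 2 * bO * v) -
      κ * (2 * b1 * v + 2 * b2 * y2 - 2 * g')) = 2 * x1 - 2 * v * bf b1 b2 bO g x1 x2 g' v y2 := by
    have hfx : κ * x2 = g + f * x1 := by linarith only [T.fx]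
    have hfy : κ * y2 = g' + f * v := by linarith only [T.fy]
    have h2 : κ * (y2 * x1 - x2 * v) = g' * x1 - g * v := by
      linear_combination x1 * hfy - v * hfx
    unfold bf
    linear_combination (-(2 * b1 * v + 2 * b2 * y2 - 2 * g')) * h2 + 2 * x1 * hn
  rw [h1]
  have := mul_nonpos_of_nonneg_of_nonpos (by linarith only [T.v1] : 0 ≤ v) T.hB
  linarith only [this]

theorem sq2 (s : ℝ) : sq (s / 2) 2 = s := by
  show 2 * (s / 2) * 1 - 0 = s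
  ring

theorem sq3 (s : ℝ) : sq (s / 2) 3 = s ^ 2 - 1 := by
  show 2 * (s / 2) * sq (s / 2) 2 - 1 = _
  rw [sq2]
  ring

theorem sq4 (s : ℝ) : sq (s / 2) 4 = s ^ 3 - 2 * s := by
  show 2 * (s / 2) * sq (s / 2) 3 - sq (s / 2) 2 = _
  rw [sq3, sq2]
  ring

theorem sq5 (s : ℝ) : sq (s / 2) 5 = s ^ 4 - 3 * s ^ 2 + 1 := by
  show 2 * (s / 2) * sq (s / 2) 4 - sq (s / 2) 3 = _
  rw [sq4, sq3]
  ring

theorem sq6 (s : ℝ) : sq (s / 2) 6 = s ^ 5 - 4 * s ^ 3 + 3 * s := by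
  show 2 * (s / 2) * sq (s / 2) 5 - sq (s / 2) 4 = _
  rw [sq5, sq4]
  ring

theorem sq7 (s : ℝ) : sq (s / 2) 7 = s ^ 6 - 5 * s ^ 4 + 6 * s ^ 2 - 1 := by
  show 2 * (s / 2) * sq (s / 2) 6 - sq (s / 2) 5 = _
  rw [sq6, sq5]
  ring

theorem fw_even {k : ℕ} (h : k % 2 = 0) : fw 0 (1 / 2) k = 0 := by
  unfold fw
  rw [if_pos h]
  ring

theorem fw_odd {k : ℕ} (h : k % 2 = 1) : fw 0 (1 / 2) k = 1 := by
  unfold fw
  rw [if_neg (by omega)]
  ring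

/-- the fan values, label `(2,m,3)` -/
theorem fe_odd (s v y g : ℝ) {k : ℕ} (h : k % 2 = 1) : fe 0 (s / 2) (1 / 2) v y g (k + 1) =
    s * fe 0 (s / 2) (1 / 2) v y g k + v - fe 0 (s / 2) (1 / 2) v y g (k - 1) := by
  obtain ⟨m, rfl⟩ : ∃ m, k = m + 1 := ⟨k - 1, by omega⟩
  show 2 * (s / 2) * fe 0 (s / 2) (1 / 2) v y g (m + 1) + fw 0 (1 / 2) (m + 1) * v -
    fe 0 (s / 2) (1 / 2) v y g m = _
  rw [fw_odd h, Nat.add_sub_cancel]
  ring

theorem fe_even (s v y g : ℝ) {k : ℕ} (h : k % 2 = 0) (hk : 1 ≤ k) :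
    fe 0 (s / 2) (1 / 2) v y g (k + 1) =
    s * fe 0 (s / 2) (1 / 2) v y g k - fe 0 (s / 2) (1 / 2) v y g (k - 1) := by
  obtain ⟨m, rfl⟩ : ∃ m, k = m + 1 := ⟨k - 1, by omega⟩
  show 2 * (s / 2) * fe 0 (s / 2) (1 / 2) v y g (m + 1) + fw 0 (1 / 2) (m + 1) * v -
    fe 0 (s / 2) (1 / 2) v y g m = _
  rw [fw_even h, Nat.add_sub_cancel]
  ring

theorem fe_vals (s v y g : ℝ) :
    fe 0 (s / 2) (1 / 2) v y g 2 = s * g + v - y ∧
    fe 0 (s / 2) (1 / 2) v y g 3 = (s ^ 2 - 1) * g - s * y + s * v ∧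
    fe 0 (s / 2) (1 / 2) v y g 4 = (s ^ 3 - 2 * s) * g - (s ^ 2 - 1) * y + s ^ 2 * v ∧
    fe 0 (s / 2) (1 / 2) v y g 5 = (s ^ 4 - 3 * s ^ 2 + 1) * g - (s ^ 3 - 2 * s) * y +
      (s ^ 3 - s) * v ∧
    fe 0 (s / 2) (1 / 2) v y g 6 = (s ^ 5 - 4 * s ^ 3 + 3 * s) * g -
      (s ^ 4 - 3 * s ^ 2 + 1) * y + (s ^ 4 - 2 * s ^ 2 + 1) * v := by
  have e0 : fe 0 (s / 2) (1 / 2) v y g 0 = y := rfl
  have e1 : fe 0 (s / 2) (1 / 2) v y g 1 = g := rfl
  have e2 : fe 0 (s / 2) (1 / 2) v y g 2 = s * g + v - y := by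
    rw [fe_odd s v y g (k := 1) rfl, e1, show 1 - 1 = 0 from rfl, e0]
  have e3 : fe 0 (s / 2) (1 / 2) v y g 3 = (s ^ 2 - 1) * g - s * y + s * v := by
    rw [fe_even s v y g (k := 2) rfl (by norm_num), e2, show 2 - 1 = 1 from rfl, e1]
    ring
  have e4 : fe 0 (s / 2) (1 / 2) v y g 4 = (s ^ 3 - 2 * s) * g - (s ^ 2 - 1) * y + s ^ 2 * v := by
    rw [fe_odd s v y g (k := 3) rfl, e3, show 3 - 1 = 2 from rfl, e2]
    ring
  have e5 : fe 0 (s / 2) (1 / 2) v y g 5 = (s ^ 4 - 3 * s ^ 2 + 1) * g - (s ^ 3 - 2 * s) * y +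
      (s ^ 3 - s) * v := by
    rw [fe_even s v y g (k := 4) rfl (by norm_num), e4, show 4 - 1 = 3 from rfl, e3]
    ring
  refine ⟨e2, e3, e4, e5, ?_⟩
  rw [fe_odd s v y g (k := 5) rfl, e5, show 5 - 1 = 4 from rfl, e4]
  ring

/-- the root `v* = (s² - 1; s, s³ - s)` -/
theorem vs_mem (h : RT 0 (s / 2) (1 / 2) R) : R (s ^ 2 - 1) s (s ^ 3 - s) := by
  have h1 := h.r2 _ _ _ h.e0
  have e1 : 2 * (s / 2) * 1 + 2 * (1 / 2) * 0 - 0 = s := by ring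
  rw [e1] at h1
  have h2 := h.r0 _ _ _ h1
  have e2 : 2 * 0 * 0 + 2 * (s / 2) * s - 1 = s ^ 2 - 1 := by ring
  rw [e2] at h2
  have h3 := h.r1 _ _ _ h2
  have e3 : 2 * 0 * (s ^ 2 - 1) + 2 * (1 / 2) * s - 0 = s := by ring
  rw [e3] at h3
  have h4 := h.r2 _ _ _ h3
  have e4 : 2 * (s / 2) * (s ^ 2 - 1) + 2 * (1 / 2) * s - s = s ^ 3 - s := by ring
  rw [e4] at h4
  exact h4

/-- index six -/
theorem six (T : Two 0 (s / 2) (1 / 2) R κ f g x1 x2 g' v y2) (hs1 : 18016 / 10000 ≤ s)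
    (hs2 : s ≤ 2) (h7 : 0 ≤ sq (s / 2) 7) (ha : κ ≤ f) (hm : ∀ k ≤ 5, 0 < fm (s / 2) κ k)
    (hq : fm (s / 2) κ 6 < 0)
    (hK : (1 + fm (s / 2) κ 6) * (y2 * x1 - x2 * v) < sq (s / 2) 6 * x1)
    {r1 r2 : ℝ} (H1 : 1 < sq (s / 2) 6 * r2 + sq (s / 2) 5)
    (H2 : -1 ≤ (s ^ 2 - 1) * ((s ^ 2 - 1) + s * r1 + (s ^ 3 - s) * r2))
    (H3 : g' + v * r1 + y2 * r2 ≤ 1) : False := by
  have hv := T.v1
  have hy := T.q2
  have hD : 0 < y2 * x1 - x2 * v := by linarith only [T.st]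
  have hfy : κ * y2 = g' + f * v := by linarith only [T.fy]
  obtain ⟨e2, e3, e4, e5, e6⟩ := fe_vals s v y2 g'
  obtain ⟨u, hu⟩ : ∃ u, u = s ^ 2 - 1 := ⟨_, rfl⟩
  have hsu : s ^ 2 = u + 1 := by linarith only [hu]
  have hs3 : s ^ 3 = s * (u + 1) := by rw [← hsu]; ring
  have hs4 : s ^ 4 = (u + 1) ^ 2 := by rw [← hsu]; ring
  have hs5 : s ^ 5 = s * (u + 1) ^ 2 := by rw [← hsu]; ring
  have hs6 : s ^ 6 = (u + 1) ^ 3 := by rw [← hsu]; ring
  have hu2 : 2 < u := by rw [hu]; linarith only [mul_le_mul hs1 hs1 (by norm_num) (by linarith only [hs1])]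
  have h7' : 0 ≤ u ^ 3 - 2 * u ^ 2 - u + 1 := by
    rw [sq7, hs6, hs4, hsu] at h7
    linarith only [h7]
  have k4 : sq (s / 2) 4 = s * (u - 1) := by rw [sq4, hs3]; ring
  have k5 : sq (s / 2) 5 = u ^ 2 - u - 1 := by rw [sq5, hs4, hsu]; ring
  have k6 : sq (s / 2) 6 = s * u * (u - 2) := by rw [sq6, hs5, hs3]; ring
  rw [hs4, hs3, hsu] at e5
  rw [hs5, hs3, hs4, hsu] at e6
  obtain ⟨W, hW⟩ : ∃ W, W = fe 0 (s / 2) (1 / 2) v y2 g' 5 := ⟨_, rfl⟩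
  obtain ⟨Z, hZ⟩ : ∃ Z, Z = fe 0 (s / 2) (1 / 2) v y2 g' 6 := ⟨_, rfl⟩
  have hWe : W = (u ^ 2 - u - 1) * g' - s * (u - 1) * y2 + s * u * v := by
    rw [hW, e5]
    ring
  have hZe : Z = s * u * (u - 2) * g' - (u ^ 2 - u - 1) * y2 + u ^ 2 * v := by
    rw [hZ, e6]
    ring
  have hg : g' = -(s * (u - 1)) * Z + (u ^ 2 - u - 1) * W + s * u * v := by
    rw [hWe, hZe, hu]
    ring
  have hy2 : y2 = -(u ^ 2 - u - 1) * Z + s * u * (u - 2) * W + u ^ 2 * v := by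
    rw [hWe, hZe, hu]
    ring
  obtain ⟨p, hp⟩ : ∃ p, p = fm (s / 2) κ 5 := ⟨_, rfl⟩
  obtain ⟨q, hq'⟩ : ∃ q, q = -fm (s / 2) κ 6 := ⟨_, rfl⟩
  have hp1 : p = κ * (u ^ 2 - u - 1) - s * (u - 1) := by
    rw [hp]
    show κ * sq (s / 2) 5 - sq (s / 2) 4 = _
    rw [k5, k4]
  have hq1 : q = (u ^ 2 - u - 1) - κ * (s * u * (u - 2)) := by
    rw [hq']
    show -(κ * sq (s / 2) 6 - sq (s / 2) 5) = _
    rw [k6, k5]
    ring
  have hp0 : 0 < p := by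
    rw [hp]
    exact hm 5 le_rfl
  have hq0 : 0 < q := by
    rw [hq']
    linarith only [hq]
  have hW1 : 1 ≤ W := by
    rw [hW]
    exact T.e_pos (hm 5 le_rfl)
  have hZ1 : Z = v ∨ v + 1 ≤ Z := by
    rcases fe_r T.h T.hy 5 with ⟨-, -, h3⟩ | ⟨h1, -, -⟩
    · rw [fw_even (k := 5 + 1) rfl, fw_odd (k := 5) rfl] at h3
      rcases h3 with h3 | h3
      · left
        have : fe 0 (s / 2) (1 / 2) v y2 g' (5 + 1) = Z := hZ.symm
        rw [this] at h3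
        linarith only [h3]
      · right
        have : fe 0 (s / 2) (1 / 2) v y2 g' (5 + 1) = Z := hZ.symm
        rw [this] at h3
        linarith only [h3]
    · exfalso
      have := z1_nonneg h1
      linarith only [hW, hW1, this]
  have hN : Z ^ 2 + W ^ 2 + v ^ 2 - s * W * Z - Z * v = 1 := by
    have h1 := fe_n T.h T.hy 5
    rw [fw_even (k := 5 + 1) rfl, fw_odd (k := 5) rfl, ← hW] at h1
    have : fe 0 (s / 2) (1 / 2) v y2 g' (5 + 1) = Z := hZ.symm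
    rw [this] at h1
    linarith only [h1]
  have hP0 : 2 * Z < s * W + v := by
    have h1 := (T.diff 4).1
    have h2 := T.b_pos
    have h3 : 0 ≤ fm (s / 2) κ 5 * (2 * 0 * v + 2 * (s / 2) * y2 - 2 * g') :=
      mul_nonneg (hm 5 le_rfl).le (by linarith only [T.obt])
    have h4 : 0 < sq (s / 2) 5 * ((2 * y2 - 2 * (s / 2) * g' - 2 * (1 / 2) * v) -
        κ * (2 * 0 * v + 2 * (s / 2) * y2 - 2 * g')) := by
      apply mul_pos _ h2
      rw [k5]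
      linarith only [mul_pos (sub_pos.2 hu2) (by linarith only [hu2] : 0 < u + 1)]
    have h5 : 0 < fe 0 (s / 2) (1 / 2) v y2 g' 4 - fe 0 (s / 2) (1 / 2) v y2 g' (4 + 2) := by
      rw [h1]
      exact add_pos_of_nonneg_of_pos h3 h4
    have h6 : fe 0 (s / 2) (1 / 2) v y2 g' 4 = s * W - Z + v := by
      have h8 := fe_odd s v y2 g' (k := 5) rfl
      have h9 : fe 0 (s / 2) (1 / 2) v y2 g' (5 + 1) = Z := hZ.symm
      rw [h9, ← hW, show 5 - 1 = 4 from rfl] at h8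
      linarith only [h8]
    have h7 : fe 0 (s / 2) (1 / 2) v y2 g' (4 + 2) = Z := hZ.symm
    rw [h6, h7] at h5
    linarith only [h5]
  have ha' : q * (W - s * v) ≤ p * (s ^ 2 * v - Z) := by
    have h1 : v * (f - κ) = v * (s ^ 2 * p + s * q) - (Z * p + W * q) := by
      have h2 : v * f = κ * y2 - g' := by linarith only [hfy]
      have h3 : v * (f - κ) = κ * y2 - g' - κ * v := by linear_combination h2
      rw [h3, hp1, hq1]
      nth_rewrite 1 [hy2]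
      nth_rewrite 1 [hg]
      rw [hu]
      ring
    have h2 : 0 ≤ v * (f - κ) := mul_nonneg (by linarith only [hv]) (by linarith only [ha])
    rw [h1] at h2
    linarith only [h2]
  have hX := six_X hsu hu2 (by linarith only [hs1]) h7' hv hW1 hp0 hq0 hP0.le ha'
  have hX' : 0 ≤ y2 - u * v := by
    have e : y2 - u * v = s * u * (u - 2) * W - (u ^ 2 - u - 1) * Z + (u ^ 2 - u) * v := by
      nth_rewrite 1 [hy2]
      ring
    rw [e]
    exact hX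
  have hb := beta T
  have hs0 : 0 < s := by linarith only [hs1]
  have hsu2 : 0 < s * (u - 2) := mul_pos hs0 (by linarith only [hu2])
  have hK' : u * p + s * q < u * (p * (W - s / 2 * Z) + q * ((s * W + v) / 2 - Z)) := by
    have e1 : (2 * y2 - 2 * (s / 2) * g' - 2 * (1 / 2) * v) -
        κ * (2 * 0 * v + 2 * (s / 2) * y2 - 2 * g') =
        2 * (p * (W - s / 2 * Z) + q * ((s * W + v) / 2 - Z)) := by
      rw [hp1, hq1]
      nth_rewrite 1 [hy2]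
      nth_rewrite 1 [hg]
      nth_rewrite 1 [hy2]
      nth_rewrite 1 [hg]
      rw [hu]
      ring
    rw [e1] at hb
    have e2 : 1 + fm (s / 2) κ 6 = s * (u - 2) * (u * p + s * q) := by
      have : fm (s / 2) κ 6 = -q := by rw [hq']; ring
      rw [this, hp1, hq1, hu]
      ring
    rw [e2, k6] at hK
    have h1 : (s * (u - 2) * u) * (2 * x1) ≤ (s * (u - 2) * u) *
        ((y2 * x1 - x2 * v) * (2 * (p * (W - s / 2 * Z) + q * ((s * W + v) / 2 - Z)))) :=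
      mul_le_mul_of_nonneg_left hb (mul_pos hsu2 (by linarith only [hu2])).le
    have h2 : (s * (u - 2) * (y2 * x1 - x2 * v)) * (u * p + s * q) <
        (s * (u - 2) * (y2 * x1 - x2 * v)) *
        (u * (p * (W - s / 2 * Z) + q * ((s * W + v) / 2 - Z))) := by
      linarith only [hK, h1]
    exact lt_of_mul_lt_mul_left h2 (mul_pos hsu2 hD).le
  refine six_real hsu hu2 hs0 hs2 hv hW1 hZ1 hN hp0 hq0 hK' ?_
  rw [k6, k5] at H1
  rw [hs3, ← hu] at H2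
  have h1 : -(u + 1) ≤ s * u * r2 := by
    have e1 : (u - 2) * (-(u + 1)) ≤ (u - 2) * (s * u * r2) := by linarith only [H1]
    exact le_of_mul_le_mul_left e1 (by linarith only [hu2])
  have h2 : (y2 - u * v) * (-(u + 1)) ≤ (y2 - u * v) * (s * u * r2) :=
    mul_le_mul_of_nonneg_left h1 hX'
  have h3 : v * (-1) ≤ v * (u * (u + s * r1 + (s * (u + 1) - s) * r2)) :=
    mul_le_mul_of_nonneg_left H2 (by linarith only [hv])
  have h4 : s * u * (g' + v * r1 + y2 * r2) ≤ s * u * 1 :=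
    mul_le_mul_of_nonneg_left H3 (by positivity)
  have h5 : s * u * g' - v * (1 + u ^ 2) - (u + 1) * (y2 - u * v) ≤ s * u := by linarith only [h2, h3, h4]
  have h6 : s * u * W - s ^ 2 * Z + (u - 1) * v =
      s * u * g' - v * (1 + u ^ 2) - (u + 1) * (y2 - u * v) := by
    nth_rewrite 1 [hy2]
    nth_rewrite 1 [hg]
    rw [hu]
    ring
  rw [h6]
  exact h5

/-- index five -/
theorem five (T : Two 0 (s / 2) (1 / 2) R κ f g x1 x2 g' v y2) (hs1 : 18016 / 10000 ≤ s)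
    (hs2 : s ≤ 2) (ha : κ ≤ f) (hm : ∀ k ≤ 4, 0 < fm (s / 2) κ k) (hq : fm (s / 2) κ 5 < 0)
    (hK : (1 + fm (s / 2) κ 5) * (y2 * x1 - x2 * v) < sq (s / 2) 5 * x1)
    {r1 r2 : ℝ} (H1 : 1 < sq (s / 2) 5 * r2 + sq (s / 2) 4)
    (H2 : -(3 / 7) ≤ (s ^ 2 - 1) + s * r1 + (s ^ 3 - s) * r2) (H3 : g' + v * r1 + y2 * r2 ≤ 1) :
    False := by
  have hv := T.v1
  have hy := T.q2
  have hD : 0 < y2 * x1 - x2 * v := by linarith only [T.st]
  have hfy : κ * y2 = g' + f * v := by linarith only [T.fy]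
  obtain ⟨e2, e3, e4, e5, -⟩ := fe_vals s v y2 g'
  obtain ⟨W, hW⟩ : ∃ W, W = fe 0 (s / 2) (1 / 2) v y2 g' 4 := ⟨_, rfl⟩
  obtain ⟨Z, hZ⟩ : ∃ Z, Z = fe 0 (s / 2) (1 / 2) v y2 g' 5 := ⟨_, rfl⟩
  have hg : g' = (s ^ 3 - 2 * s) * W - (s ^ 2 - 1) * Z + s * v := by
    rw [hW, hZ, e4, e5]
    ring
  have hy2 : y2 = (s ^ 4 - 3 * s ^ 2 + 1) * W - (s ^ 3 - 2 * s) * Z + s ^ 2 * v := by
    rw [hW, hZ, e4, e5]
    ring
  -- `p`, `q`
  obtain ⟨p, hp⟩ : ∃ p, p = fm (s / 2) κ 4 := ⟨_, rfl⟩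
  obtain ⟨q, hq'⟩ : ∃ q, q = -fm (s / 2) κ 5 := ⟨_, rfl⟩
  have hp1 : p = κ * (s ^ 3 - 2 * s) - (s ^ 2 - 1) := by
    rw [hp]
    show κ * sq (s / 2) 4 - sq (s / 2) 3 = _
    rw [sq4, sq3]
  have hq1 : q = (s ^ 3 - 2 * s) - κ * (s ^ 4 - 3 * s ^ 2 + 1) := by
    rw [hq']
    show -(κ * sq (s / 2) 5 - sq (s / 2) 4) = _
    rw [sq5, sq4]
    ring
  have hp0 : 0 < p := by
    rw [hp]
    exact hm 4 le_rfl
  have hq0 : 0 < q := by
    rw [hq']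
    linarith only [hq]
  have hW1 : v + 1 ≤ W := by
    have h1 := T.r_pos (k := 3) (hm 3 (by norm_num)) (hm 4 le_rfl)
    rw [fw_even (k := 3 + 1) rfl, fw_odd (k := 3) rfl] at h1
    rw [hW]
    linarith
  -- `P0 > 0`
  have hP0 : Z < s / 2 * W := by
    have h1 := (T.diff 3).1
    have h2 := T.b_pos
    have h3 : 0 ≤ fm (s / 2) κ 4 * (2 * 0 * v + 2 * (s / 2) * y2 - 2 * g') :=
      mul_nonneg (hm 4 le_rfl).le (by linarith only [T.obt])
    have h4 : 0 < sq (s / 2) 4 * ((2 * y2 - 2 * (s / 2) * g' - 2 * (1 / 2) * v) -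
        κ * (2 * 0 * v + 2 * (s / 2) * y2 - 2 * g')) := by
      apply mul_pos _ h2
      rw [sq4]
      linarith only [mul_pos (by linarith only [hs1] : 0 < s)
        (by linarith only [mul_le_mul hs1 hs1 (by norm_num) (by linarith only [hs1])] : 0 < s ^ 2 - 2)]
    have h5 : 0 < fe 0 (s / 2) (1 / 2) v y2 g' 3 - fe 0 (s / 2) (1 / 2) v y2 g' (3 + 2) := by
      rw [h1]
      exact add_pos_of_nonneg_of_pos h3 h4
    have h6 : fe 0 (s / 2) (1 / 2) v y2 g' 3 = s * W - Z := by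
      rw [hW, hZ, e3, e4, e5]
      ring
    have h7 : fe 0 (s / 2) (1 / 2) v y2 g' (3 + 2) = Z := hZ.symm
    rw [h6, h7] at h5
    linarith
  -- `φ a ≥ 0`
  have ha' : q * (W - v) ≤ p * (s * v - Z) := by
    have h1 : v * (f - κ) = v * (s * p + q) - (Z * p + W * q) := by
      have h2 : v * f = κ * y2 - g' := by linarith only [hfy]
      have h3 : v * (f - κ) = κ * y2 - g' - κ * v := by linear_combination h2
      rw [h3, hp1, hq1]
      nth_rewrite 1 [hy2]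
      nth_rewrite 1 [hg]
      ring
    have h2 : 0 ≤ v * (f - κ) := mul_nonneg (by linarith only [hv]) (by linarith only [ha])
    rw [h1] at h2
    linarith only [h2]
  have hZv : Z < s * v := by
    have h1 : 0 < q * (W - v) := mul_pos hq0 (by linarith only [hW1])
    have h2 : 0 < p * (s * v - Z) := by linarith only [ha', h1]
    have := (mul_pos_iff_of_pos_left hp0).1 h2
    linarith only [this]
  have hX := five_X (s := s) (u := s ^ 2 - 1) (x := v) (W := W) (Z := Z) (by ring) (by linarith only [mul_le_mul hs1 hs1 (by norm_num) (by linarith only [hs1])])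
    (by linarith only [hs1]) hv (by linarith only [hv, hW1]) hP0.le hZv.le
  have hX' : 0 < y2 - (s ^ 2 - 1) * v := by
    have e : y2 - (s ^ 2 - 1) * v = ((s ^ 2 - 1) ^ 2 - (s ^ 2 - 1) - 1) * W -
        s * (s ^ 2 - 1 - 1) * Z + v := by
      nth_rewrite 1 [hy2]
      ring
    rw [e]
    exact hX
  -- `K` fails
  have hb := beta T
  have s5 : 0 < s ^ 4 - 3 * s ^ 2 + 1 := by
    have e : s ^ 4 - 3 * s ^ 2 + 1 = (s ^ 2 - s - 1) * (s ^ 2 + s - 1) := by ring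
    rw [e]
    have hss : 18016 / 10000 * (8016 / 10000) ≤ s * (s - 1) :=
      mul_le_mul hs1 (by linarith only [hs1]) (by norm_num) (by linarith only [hs1])
    exact mul_pos (by linarith only [hss]) (by linarith only [hs1, hss])
  have hK' : (s ^ 4 - 3 * s ^ 2 + 1) * p + (s ^ 3 - 2 * s - 1) * q <
      (s ^ 4 - 3 * s ^ 2 + 1) * (p * (W - s / 2 * Z - v / 2) + q * (s / 2 * W - Z)) := by
    have e1 : (2 * y2 - 2 * (s / 2) * g' - 2 * (1 / 2) * v) -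
        κ * (2 * 0 * v + 2 * (s / 2) * y2 - 2 * g') =
        2 * (p * (W - s / 2 * Z - v / 2) + q * (s / 2 * W - Z)) := by
      rw [hp1, hq1]
      nth_rewrite 1 [hy2]
      nth_rewrite 1 [hg]
      nth_rewrite 1 [hy2]
      nth_rewrite 1 [hg]
      ring
    rw [e1] at hb
    have e2 : 1 + fm (s / 2) κ 5 = (s ^ 4 - 3 * s ^ 2 + 1) * p + (s ^ 3 - 2 * s - 1) * q := by
      have : fm (s / 2) κ 5 = -q := by rw [hq']; ring
      rw [this, hp1, hq1]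
      ring
    rw [e2, sq5] at hK
    have h1 : (s ^ 4 - 3 * s ^ 2 + 1) * (2 * x1) ≤ (s ^ 4 - 3 * s ^ 2 + 1) *
        ((y2 * x1 - x2 * v) * (2 * (p * (W - s / 2 * Z - v / 2) + q * (s / 2 * W - Z)))) :=
      mul_le_mul_of_nonneg_left hb s5.le
    have h2 : (y2 * x1 - x2 * v) * ((s ^ 4 - 3 * s ^ 2 + 1) * p + (s ^ 3 - 2 * s - 1) * q) <
        (y2 * x1 - x2 * v) *
        ((s ^ 4 - 3 * s ^ 2 + 1) * (p * (W - s / 2 * Z - v / 2) + q * (s / 2 * W - Z))) := by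
      linarith only [hK, h1]
    exact lt_of_mul_lt_mul_left h2 hD.le
  -- `C* < 1`
  refine five_real hs1 hs2 hv hW1 hp0 hq0 hK' ha' ?_
  rw [sq5, sq4] at H1
  have h1 : (y2 - (s ^ 2 - 1) * v) * (1 - (s ^ 3 - 2 * s)) <
      (y2 - (s ^ 2 - 1) * v) * ((s ^ 4 - 3 * s ^ 2 + 1) * r2) :=
    mul_lt_mul_of_pos_left (by linarith only [H1]) hX'
  have h2 : v * (-(3 / 7)) ≤ v * ((s ^ 2 - 1) + s * r1 + (s ^ 3 - s) * r2) :=
    mul_le_mul_of_nonneg_left H2 (by linarith only [hv])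
  have h3 : (s ^ 4 - 3 * s ^ 2 + 1) * (s * (g' + v * r1 + y2 * r2)) ≤
      (s ^ 4 - 3 * s ^ 2 + 1) * (s * 1) :=
    mul_le_mul_of_nonneg_left (mul_le_mul_of_nonneg_left H3 (by linarith only [hs1])) s5.le
  have h4 : (s ^ 4 - 3 * s ^ 2 + 1) * (v * (-(3 / 7))) ≤
      (s ^ 4 - 3 * s ^ 2 + 1) * (v * ((s ^ 2 - 1) + s * r1 + (s ^ 3 - s) * r2)) :=
    mul_le_mul_of_nonneg_left h2 s5.le
  have h5 : s * ((y2 - (s ^ 2 - 1) * v) * (1 - (s ^ 3 - 2 * s))) <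
      s * ((y2 - (s ^ 2 - 1) * v) * ((s ^ 4 - 3 * s ^ 2 + 1) * r2)) :=
    mul_lt_mul_of_pos_left h1 (by linarith only [hs1])
  -- the combination
  have h6 : (s ^ 4 - 3 * s ^ 2 + 1) * (s * g' - v * (s ^ 2 - 1) - v * (3 / 7)) -
      s * ((y2 - (s ^ 2 - 1) * v) * (s ^ 3 - 2 * s - 1)) < (s ^ 4 - 3 * s ^ 2 + 1) * s := by
    linarith only [h3, h4, h5]
  have hd' : 0 < s ^ 2 - s - 1 := by
    have hss : 18016 / 10000 * (8016 / 10000) ≤ s * (s - 1) :=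
      mul_le_mul hs1 (by linarith only [hs1]) (by norm_num) (by linarith only [hs1])
    linarith only [hss]
  have h7 : (s ^ 4 - 3 * s ^ 2 + 1) * (s * g' - v * (s ^ 2 - 1) - v * (3 / 7)) -
      s * ((y2 - (s ^ 2 - 1) * v) * (s ^ 3 - 2 * s - 1)) - (s ^ 4 - 3 * s ^ 2 + 1) * s =
      (s ^ 2 - s - 1) * (s * (s ^ 2 + s - 1) * (W - 1) -
      (s * (s + 1) * Z + (1 + 3 / 7 * (s ^ 2 + s - 1)) * v)) := by
    nth_rewrite 1 [hy2]
    nth_rewrite 1 [hg]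
    ring
  have h8 : (s ^ 2 - s - 1) * (s * (s ^ 2 + s - 1) * (W - 1) -
      (s * (s + 1) * Z + (1 + 3 / 7 * (s ^ 2 + s - 1)) * v)) < 0 := by
    rw [← h7]
    linarith only [h6]
  by_contra hcon
  have := mul_nonneg hd'.le (by linarith only [not_lt.1 hcon] : 0 ≤ s * (s ^ 2 + s - 1) * (W - 1) -
      (s * (s + 1) * Z + (1 + 3 / 7 * (s ^ 2 + s - 1)) * v))
  linarith only [h8, this]

end

end Pool.Agent.Helper10.DY
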