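import Pool.Agent.Helper10.DY.G4b

/-!
# GAP4, label `(2,m,3)`: the finite and the affine labels `m ≤ 6` (MP_d13a5e_al)
-/

set_option autoImplicit false

namespace Pool.Agent.Helper10.DY

open _root_.DY (Z1 sq)
open Pool.Agent.Helper62.DY (RT)
open Pool.Agent.Helper32.DY (Two fm fw fe bf z1_nonneg z1_one fe_r fe_n)

section

variable {s : ℝ} {R : ℝ → ℝ → ℝ → Prop} {κ f g x1 x2 g' v y2 : ℝ}

/-- `B(y, a)` for `a = d1 + d2` -/
theorem Ba (T : Two 0 (s / 2) (1 / 2) R κ f g x1 x2 g' v y2) :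
    (y2 * x1 - x2 * v) * ((v + y2) / 2 - s / 2 * g') = -(x2 - x1) +
      (y2 - v) * bf 0 (s / 2) (1 / 2) g x1 x2 g' v y2 -
      (y2 * x1 - x2 * v) * (f - κ) * (s / 2 * y2 - g') := by
  have hn := T.h.n _ _ _ T.hy
  have hfx : κ * x2 = g + f * x1 := by linarith only [T.fx]
  have hfy : κ * y2 = g' + f * v := by linarith only [T.fy]
  have h1 : (y2 * x1 - x2 * v) * κ = g' * x1 - g * v := by
    linear_combination x1 * hfy - v * hfx
  have h2 : (y2 * x1 - x2 * v) * f = g' * x2 - g * y2 := by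
    linear_combination x2 * hfy - y2 * hfx
  have h3 : (y2 * x1 - x2 * v) * (f - κ) = g' * x2 - g * y2 - (g' * x1 - g * v) := by
    linear_combination h2 - h1
  rw [h3]
  unfold bf
  linear_combination (x1 - x2) * hn

/-- the steeper root for `s² ≤ 3` -/
theorem low (T : Two 0 (s / 2) (1 / 2) R κ f g x1 x2 g' v y2) (hs0 : 0 < s) (hs : s ^ 2 ≤ 3)
    (hc : s * y2 - 2 * g' = 0 ∨ 1 ≤ s * y2 - 2 * g') (hu : x1 ≤ x2) (hv : v < y2) (ha : κ ≤ f) :
    s ^ 2 = 3 ∧ ((2 * g' = s * y2 ∧ y2 = 2 * v + 2) ∨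
      (g' = s * v + 1 ∧ y2 = 2 * v + s ∧ x1 = x2 ∧ κ = f)) := by
  have hv1 := T.v1
  have hy := T.q2
  have hD : 0 < y2 * x1 - x2 * v := by linarith only [T.st]
  have hn := T.h.n _ _ _ T.hy
  have hba := Ba T
  have hobt : 0 ≤ s / 2 * y2 - g' := by linarith only [T.obt]
  have hB := T.hB
  have t1 : (y2 - v) * bf 0 (s / 2) (1 / 2) g x1 x2 g' v y2 ≤ 0 :=
    mul_nonpos_of_nonneg_of_nonpos (by linarith only [hv]) hB
  have t2 : 0 ≤ (y2 * x1 - x2 * v) * (f - κ) * (s / 2 * y2 - g') :=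
    mul_nonneg (mul_nonneg hD.le (by linarith only [ha])) hobt
  have hH : v + y2 ≤ s * g' := by
    have h1 : (y2 * x1 - x2 * v) * ((v + y2) / 2 - s / 2 * g') ≤ 0 := by
      rw [hba]
      linarith only [hu, t1, t2]
    by_contra hcon
    have := mul_pos hD (by linarith only [not_le.1 hcon] : 0 < (v + y2) / 2 - s / 2 * g')
    linarith only [h1, this]
  have h5 : s ^ 2 < 3 → s ^ 2 < 8 / 3 := by
    intro h
    have h1 := (T.h.flat (s := sq (s / 2)) rfl rfl (fun _ => rfl) 4 _ _ T.h.e0).1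
    have e1 : sq (s / 2) (4 + 1) * 1 - sq (s / 2) 4 * 0 = s ^ 4 - 3 * s ^ 2 + 1 := by
      have := sq5 s
      show sq (s / 2) 5 * 1 - sq (s / 2) 4 * 0 = _
      rw [this]
      ring
    rw [e1] at h1
    have h2 : s ^ 4 - 3 * s ^ 2 + 1 ≤ 0 := by
      rcases h1 with (h1 | h1) | h1
      · linarith only [h1]
      · have : 0 < s ^ 2 * (3 - s ^ 2) := mul_pos (by positivity) (by linarith only [h])
        linarith only [h1, this]
      · rcases h1 with h1 | h1 <;> linarith only [h1]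
    by_contra hcon
    linarith only [h2, mul_nonneg (sub_nonneg.2 (not_lt.1 hcon)) (by linarith only [not_lt.1 hcon] : 0 ≤ s ^ 2 - 1 / 3)]
  rcases hc with hc | hc
  · -- `c_R = 0`
    have hg : g' = s / 2 * y2 := by linarith only [hc]
    have h1 : v ≤ (s ^ 2 / 2 - 1) * y2 := by
      rw [hg] at hH
      linarith only [hH]
    have h2 : (1 - s ^ 2 / 4) * y2 ^ 2 - v * y2 + v ^ 2 = 1 := by
      rw [hg] at hn
      linarith only [hn]
    rcases hs.lt_or_eq with h3 | h3
    · exfalso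
      have h4 := h5 h3
      have h6 : (s ^ 2 / 2 - 1) * y2 ≤ 1 / 3 * y2 := mul_le_mul_of_nonneg_right (by linarith only [h4]) (by linarith only [hy])
      have h7 : 1 / 3 * y2 ^ 2 < (1 - s ^ 2 / 4) * y2 ^ 2 :=
        mul_lt_mul_of_pos_right (by linarith only [h4]) (by positivity)
      have h8 : 0 ≤ y2 * (1 / 3 * y2 - v) := mul_nonneg (by linarith only [hy]) (by linarith only [h1, h6])
      linarith only [h2, h7, h8, mul_le_mul hv1 hv1 (by norm_num) (by linarith only [hv1])]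
    · refine ⟨h3, Or.inl ⟨by linarith only [hg], ?_⟩⟩
      rw [h3] at h1 h2
      have h4 : (y2 / 2 - v) ^ 2 = 1 := by linarith only [h2]
      have h6 : 0 ≤ y2 / 2 - v := by linarith only [h1]
      rcases mul_eq_zero.1 (by linear_combination h4 : (y2 / 2 - v - 1) * (y2 / 2 - v + 1) = 0) with h | h <;> linarith
  · -- `c_R ≥ 1/2`
    have h1 : v + s / 2 ≤ (s ^ 2 / 2 - 1) * y2 := by
      have : s * g' ≤ s * ((s * y2 - 1) / 2) := mul_le_mul_of_nonneg_left (by linarith only [hc]) hs0.le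
      linarith only [hH, this]
    have h2 : (s ^ 2 / 2 - 1) * y2 ≤ 1 / 2 * y2 := mul_le_mul_of_nonneg_right (by linarith only [hs]) (by linarith only [hy])
    have h3 : s / 2 ≤ y2 / 2 - v := by linarith only [h1, h2]
    have k1 : 0 ≤ (s * y2 - 2 * g' - 1) * (s * y2 - 2 * g' + 1) :=
      mul_nonneg (by linarith only [hc]) (by linarith only [hc])
    have k2 : 0 ≤ (y2 / 2 - v - s / 2) * (y2 / 2 - v + s / 2) :=
      mul_nonneg (by linarith only [h3]) (by linarith only [hs0, h3])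
    have hy2 : 2 ≤ y2 := by linarith only [hs0, hv1, h3]
    have k3 : 0 ≤ (3 - s ^ 2) * (y2 ^ 2 - 1) := mul_nonneg (by linarith only [hs]) (by linarith only [mul_le_mul hy2 hy2 (by norm_num) (by linarith only [hy2])])
    have k4 : (s * y2 - 2 * g' - 1) * (s * y2 - 2 * g' + 1) / 4 +
        (y2 / 2 - v - s / 2) * (y2 / 2 - v + s / 2) + (3 - s ^ 2) * (y2 ^ 2 - 1) / 4 = 0 := by
      linear_combination hn
    have k5 : (3 - s ^ 2) * (y2 ^ 2 - 1) = 0 := by linarith only [k1, k2, k3, k4]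
    have k6 : (y2 / 2 - v - s / 2) * (y2 / 2 - v + s / 2) = 0 := by linarith only [k1, k2, k4, k5]
    have k7 : (s * y2 - 2 * g' - 1) * (s * y2 - 2 * g' + 1) = 0 := by linarith only [k4, k5, k6]
    have e1 : s ^ 2 = 3 := by
      rcases mul_eq_zero.1 k5 with h | h
      · linarith only [h]
      · linarith only [h, mul_le_mul hy2 hy2 (by norm_num) (by linarith only [hy2])]
    have e2 : y2 = 2 * v + s := by
      rcases mul_eq_zero.1 k6 with h | h <;> linarith
    have e3 : g' = s * v + 1 := by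
      rcases mul_eq_zero.1 k7 with h | h
      · have : g' = (s * y2 - 1) / 2 := by linarith only [h]
        rw [this, e2]
        linarith only [e1]
      · linarith only [hc, h]
    refine ⟨e1, Or.inr ⟨e3, e2, ?_⟩⟩
    -- equality
    have m1 : (v + y2) / 2 - s / 2 * g' = 0 := by
      rw [e3, e2]
      linear_combination (-(v / 2)) * e1
    rw [m1, mul_zero] at hba
    have m2 : x2 - x1 = 0 := by linarith only [hu, hba, t1, t2]
    have m3 : (y2 * x1 - x2 * v) * (f - κ) * (s / 2 * y2 - g') = 0 := by linarith only [hu, hba, t1, t2]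
    refine ⟨by linarith only [m2], ?_⟩
    rcases mul_eq_zero.1 m3 with h | h
    · rcases mul_eq_zero.1 h with h | h
      · linarith only [hD, h]
      · linarith only [h]
    · exfalso
      linarith only [hc, h]

/-- the bound from `ρ(x_R) ≤ 1` and `ρ(x_L) ≥ 0` -/
theorem Kb (T : Two 0 (s / 2) (1 / 2) R κ f g x1 x2 g' v y2) {r1 r2 : ℝ}
    (H3 : g' + v * r1 + y2 * r2 ≤ 1) (H4 : 0 ≤ g + x1 * r1 + x2 * r2) :
    (y2 * x1 - x2 * v) * (κ + r2) ≤ x1 := by
  have hfx : κ * x2 = g + f * x1 := by linarith only [T.fx]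
  have hfy : κ * y2 = g' + f * v := by linarith only [T.fy]
  have h1 : (y2 * x1 - x2 * v) * κ = g' * x1 - g * v := by
    linear_combination x1 * hfy - v * hfx
  have h2 : x1 * (g' + v * r1 + y2 * r2) ≤ x1 * 1 :=
    mul_le_mul_of_nonneg_left H3 (by linarith only [T.p1])
  have h3 : 0 ≤ v * (g + x1 * r1 + x2 * r2) := mul_nonneg (by linarith only [T.v1]) H4
  have h4 : (y2 * x1 - x2 * v) * (κ + r2) = x1 * (g' + v * r1 + y2 * r2) -
      v * (g + x1 * r1 + x2 * r2) := by
    linear_combination h1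
  rw [h4]
  linarith only [h2, h3]

/-- `s² = 3`: the two families are impossible -/
theorem aff (T : Two 0 (s / 2) (1 / 2) R κ f g x1 x2 g' v y2) (hs0 : 0 < s) (hs : s ^ 2 = 3)
    (ha : κ ≤ f) (hf : (2 * g' = s * y2 ∧ y2 = 2 * v + 2) ∨
      (g' = s * v + 1 ∧ y2 = 2 * v + s ∧ x1 = x2 ∧ κ = f)) {r1 r2 : ℝ}
    (H3 : g' + v * r1 + y2 * r2 ≤ 1) (H4 : 0 ≤ g + x1 * r1 + x2 * r2)
    (hr : -1 < s * r2 ∨ (1 - s < r2 ∧ 0 < fm (s / 2) κ 3 ∧ 0 < fm (s / 2) κ 4) ∨
      (s ≤ κ ∧ -(s / 2) ≤ r2)) : False := by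
  have hv := T.v1
  have hp := T.p1
  have hK := Kb T H3 H4
  have hs1 : 17 / 10 < s := lt_of_pow_lt_pow_left₀ 2 hs0.le (by rw [hs]; norm_num)
  have hs2 : s < 9 / 5 := lt_of_pow_lt_pow_left₀ 2 (by norm_num) (by rw [hs]; norm_num)
  have hB := T.hB
  have hfy := T.fy
  have hfv : κ * v ≤ f * v := mul_le_mul_of_nonneg_right ha (by linarith only [hv])
  -- the value `E_4`
  have hE4 : (0 < fm (s / 2) κ 3 ∧ 0 < fm (s / 2) κ 4) → v + 1 ≤ s * g' - 2 * y2 + 3 * v := by
    rintro ⟨h3, h4⟩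
    have h1 := T.r_pos (k := 3) h3 h4
    rw [fw_even (k := 3 + 1) rfl, fw_odd (k := 3) rfl] at h1
    obtain ⟨-, -, e4, -, -⟩ := fe_vals s v y2 g'
    have e5 : fe 0 (s / 2) (1 / 2) v y2 g' (3 + 1) =
      (s ^ 3 - 2 * s) * g' - (s ^ 2 - 1) * y2 + s ^ 2 * v := e4
    rw [e5] at h1
    have hs3 : s ^ 3 = 3 * s := by
      have : s ^ 3 = s * s ^ 2 := by ring
      rw [this, hs]
      ring
    rw [hs3, hs] at h1
    linarith only [h1]
  rcases hf with ⟨hg, hy⟩ | ⟨hg, hy, hx, hκ⟩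
  · have hg2 : g' = s * (v + 1) := by
      rw [hy] at hg
      linarith
    -- `D ≥ 2 x1`
    have hD : 2 * x1 ≤ y2 * x1 - x2 * v := by
      have h1 : bf 0 (s / 2) (1 / 2) g x1 x2 g' v y2 = -x1 + x2 / 2 := by
        unfold bf
        rw [hg2, hy]
        linear_combination (-(x2 * (v + 1) / 2)) * hs
      rw [h1] at hB
      have h2 : x2 * v ≤ 2 * x1 * v := mul_le_mul_of_nonneg_right (by linarith only [hB]) (by linarith only [hv])
      rw [hy]
      linarith only [h2]
    have hκ1 : s * (v + 1) ≤ κ * (v + 2) := by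
      rw [hg2, hy] at hfy
      linarith only [hfy, hfv]
    rcases hr with hr | ⟨hr, h3, h4⟩ | ⟨hr1, hr2⟩
    · -- `s (κ + r2) > 1`
      have h1 : 2 ≤ s * κ := by
        have h2 : s * (s * (v + 1)) ≤ s * (κ * (v + 2)) := mul_le_mul_of_nonneg_left hκ1 hs0.le
        have h3 : 2 * (v + 2) ≤ (s * κ) * (v + 2) := by
          have : s * (s * (v + 1)) = 3 * (v + 1) := by rw [← hs]; ring
          linarith only [hv, h2, this]
        exact le_of_mul_le_mul_right h3 (by linarith only [hv])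
      have h2 : 1 < s * (κ + r2) := by linarith only [hr, h1]
      have h3 : 0 < κ + r2 := by
        by_contra hcon
        have := mul_nonpos_of_nonneg_of_nonpos hs0.le (not_lt.1 hcon)
        linarith only [h2, this]
      have h4 : 2 * x1 * (κ + r2) ≤ (y2 * x1 - x2 * v) * (κ + r2) :=
        mul_le_mul_of_nonneg_right hD h3.le
      have h5 : s * (2 * x1 * (κ + r2)) ≤ s * x1 := mul_le_mul_of_nonneg_left (by linarith only [hK, h4]) hs0.le
      have h6 : 2 * x1 * 1 < 2 * x1 * (s * (κ + r2)) := mul_lt_mul_of_pos_left h2 (by linarith only [hp])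
      have h7 : s * x1 < 2 * x1 := mul_lt_mul_of_pos_right (by linarith only [hs2]) (by linarith only [hp])
      linarith only [h5, h6, h7]
    · have h1 := hE4 ⟨h3, h4⟩
      rw [hg2, hy] at h1
      have h2 : s * (s * (v + 1)) = 3 * (v + 1) := by rw [← hs]; ring
      have h5 : 2 ≤ v := by linarith only [h1, h2]
      have h6 : 3 / 4 * s ≤ κ := by
        have h7 : 3 / 4 * s * (v + 2) ≤ κ * (v + 2) := by linarith only [hκ1, mul_nonneg hs0.le (sub_nonneg.2 h5)]
        exact le_of_mul_le_mul_right h7 (by linarith only [h5])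
      have h7 : 1 / 2 < κ + r2 := by linarith only [hs2, hr, h6]
      have h8 : 2 * x1 * (κ + r2) ≤ (y2 * x1 - x2 * v) * (κ + r2) :=
        mul_le_mul_of_nonneg_right hD (by linarith only [h7])
      have h9 : 2 * x1 * (1 / 2) < 2 * x1 * (κ + r2) := mul_lt_mul_of_pos_left h7 (by linarith only [hp])
      linarith only [hK, h8, h9]
    · have h7 : 1 / 2 < κ + r2 := by linarith only [hs1, hr1, hr2]
      have h8 : 2 * x1 * (κ + r2) ≤ (y2 * x1 - x2 * v) * (κ + r2) :=
        mul_le_mul_of_nonneg_right hD (by linarith only [h7])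
      have h9 : 2 * x1 * (1 / 2) < 2 * x1 * (κ + r2) := mul_lt_mul_of_pos_left h7 (by linarith only [hp])
      linarith only [hK, h8, h9]
  · have hκ1 : κ * (v + s) = s * v + 1 := by
      rw [hg, hy, ← hκ] at hfy
      linarith only [hfy]
    have hD : (y2 * x1 - x2 * v) * (κ + r2) = x1 * (s * v + 1 + (v + s) * r2) := by
      rw [hy, ← hx]
      linear_combination x1 * hκ1
    rw [hD] at hK
    have hK' : s * v + 1 + (v + s) * r2 ≤ 1 := by
      have : x1 * (s * v + 1 + (v + s) * r2) ≤ x1 * 1 := by linarith only [hK]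
      exact le_of_mul_le_mul_left this (by linarith only [hp])
    rcases hr with hr | ⟨hr, h3, h4⟩ | ⟨hr1, hr2⟩
    · have h1 : (v + s) * (-1) < (v + s) * (s * r2) := mul_lt_mul_of_pos_left hr (by linarith only [hv, hs1])
      have h2 : s * (s * v + 1 + (v + s) * r2) ≤ s * 1 := mul_le_mul_of_nonneg_left hK' hs0.le
      have h3 : s * (s * v) = 3 * v := by rw [← hs]; ring
      linarith only [hv, hs2, h1, h2, h3]
    · have h1 := hE4 ⟨h3, h4⟩
      rw [hg, hy] at h1
      have h2 : s * (s * v + 1) = 3 * v + s := by rw [← hs]; ring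
      have h5 : 1 + s ≤ v := by linarith only [h1, h2]
      have h6 : (v + s) * (1 - s) < (v + s) * r2 := mul_lt_mul_of_pos_left hr (by linarith only [hs0, hv])
      linarith only [hs, hs1, hK', h5, h6]
    · have h1 : s * (v + s) ≤ κ * (v + s) := mul_le_mul_of_nonneg_right hr1 (by linarith only [hv, hs1])
      linarith only [hs, hκ1, h1]

end

end Pool.Agent.Helper10.DY
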