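import Pool.Agent.Helper70.DY.F0

/-!
# Block P: three pairwise canonical roots are a simple system (MP_d13a5e_al)

Tits' argument for the group generated by the reflections in `a i`, with word length in the group
of linear maps; the only rank two input is that the roots of the closure of `{a i, a j}` have
coefficients of one sign.
-/

namespace DY

open Set

variable {E : Type*} [AddCommGroup E] [Module ℝ E]

namespace P

/-- the reflection as a linear map -/
def R (B : E →ₗ[ℝ] E →ₗ[ℝ] ℝ) (u : E) : Module.End ℝ E where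
  toFun := rf B u
  map_add' x y := by
    unfold rf
    rw [map_add]
    module
  map_smul' c x := by
    unfold rf
    rw [map_smul, RingHom.id_apply, smul_eq_mul]
    module

theorem R_apply (B : E →ₗ[ℝ] E →ₗ[ℝ] ℝ) (u v : E) : R B u v = v - (2 * B u v) • u := rfl

theorem R_rf (B : E →ₗ[ℝ] E →ₗ[ℝ] ℝ) (u v : E) : R B u v = rf B u v := rfl

section

variable {B : E →ₗ[ℝ] E →ₗ[ℝ] ℝ} (hs : ∀ u v, B u v = B v u) {ι : Type} (a : ι → E)
  (h1 : ∀ i, B (a i) (a i) = 1)

theorem R_sq {u : E} (hu : B u u = 1) : R B u * R B u = 1 := by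
  ext v
  rw [Module.End.mul_apply, Module.End.one_apply, R_apply, R_apply, map_sub, map_smul, hu, smul_eq_mul]
  module

theorem R_self {u : E} (hu : B u u = 1) : R B u u = -u := by
  rw [R_apply, hu]
  module

include hs in
theorem R_iso {u : E} (hu : B u u = 1) (v w : E) : B (R B u v) (R B u w) = B v w := by
  rw [R_apply, R_apply]
  simp only [map_sub, map_smul, LinearMap.sub_apply, LinearMap.smul_apply, smul_eq_mul, hu]
  rw [hs v u]
  ring

/-- the product of a word -/
def act (B : E →ₗ[ℝ] E →ₗ[ℝ] ℝ) (a : ι → E) (L : List ι) : Module.End ℝ E :=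
  (L.map fun i => R B (a i)).prod

theorem act_nil : act B a [] = 1 := rfl

theorem act_cons (i : ι) (L : List ι) : act B a (i :: L) = R B (a i) * act B a L := by
  unfold act
  rw [List.map_cons, List.prod_cons]

theorem act_append (L M : List ι) : act B a (L ++ M) = act B a L * act B a M := by
  unfold act
  rw [List.map_append, List.prod_append]

theorem act_single (i : ι) : act B a [i] = R B (a i) := by
  rw [act_cons, act_nil, mul_one]

include h1 in
theorem act_rev (L : List ι) : act B a L * act B a L.reverse = 1 ∧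
    act B a L.reverse * act B a L = 1 := by
  induction L with
  | nil => exact ⟨rfl, rfl⟩
  | cons i L ih =>
    rw [List.reverse_cons, act_append, act_cons, act_single]
    constructor
    · rw [mul_assoc, ← mul_assoc (act B a L), ih.1, one_mul, R_sq (h1 i)]
    · rw [mul_assoc, ← mul_assoc (R B (a i)), R_sq (h1 i), one_mul, ih.2]

include hs h1 in
theorem act_iso (L : List ι) (v w : E) : B (act B a L v) (act B a L w) = B v w := by
  induction L with
  | nil => rfl
  | cons i L ih => rw [act_cons, Module.End.mul_apply, Module.End.mul_apply, R_iso hs (h1 i), ih]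

include hs h1 in
/-- the reflection in `g u` -/
theorem R_conj (L : List ι) (u : E) :
    R B (act B a L u) * act B a L = act B a L * R B u := by
  ext v
  rw [Module.End.mul_apply, Module.End.mul_apply, R_apply, R_apply, act_iso hs a h1, map_sub, map_smul]

/-- word length -/
noncomputable def len (B : E →ₗ[ℝ] E →ₗ[ℝ] ℝ) (a : ι → E) (g : Module.End ℝ E) : ℕ :=
  sInf {n | ∃ L : List ι, L.length = n ∧ act B a L = g}

theorem len_le (L : List ι) : len B a (act B a L) ≤ L.length :=
  Nat.sInf_le ⟨L, rfl, rfl⟩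

theorem exists_red (L : List ι) : ∃ L', act B a L' = act B a L ∧ L'.length = len B a (act B a L) := by
  have h := Nat.sInf_mem (s := {n | ∃ M : List ι, M.length = n ∧ act B a M = act B a L})
    ⟨L.length, L, rfl, rfl⟩
  obtain ⟨L', h2, h3⟩ := h
  exact ⟨L', h3, h2⟩

theorem len_mul_le (L M : List ι) :
    len B a (act B a L * act B a M) ≤ len B a (act B a L) + M.length := by
  obtain ⟨L', h2, h3⟩ := exists_red (B := B) a L
  rw [← h2, ← act_append]
  rw [h2, ← h3, ← List.length_append]
  exact len_le a _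

/-- alternating words, ending with `t` -/
def al (s t : ι) : ℕ → List ι
  | 0 => []
  | k + 1 => (if Even k then t else s) :: al s t k

theorem al_length (s t : ι) (k : ℕ) : (al s t k).length = k := by
  induction k with
  | zero => rfl
  | succ k ih => rw [al, List.length_cons, ih]

theorem al_split (s t : ι) (i j : ℕ) : ∃ L : List ι, L.length = j ∧ al s t (i + j) = L ++ al s t i := by
  induction j with
  | zero => exact ⟨[], rfl, rfl⟩
  | succ j ih =>
    obtain ⟨L, h2, h3⟩ := ih
    exact ⟨(if Even (i + j) then t else s) :: L, by rw [List.length_cons, h2], by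
      rw [← add_assoc, al, h3, List.cons_append]⟩

theorem al_cl (s t : ι) (k : ℕ) : Cl B {a s, a t} (act B a (al s t k) (a s)) := by
  induction k with
  | zero => exact Cl.base (Or.inl rfl)
  | succ k ih =>
    rw [al, act_cons, Module.End.mul_apply, R_rf]
    refine Cl.refl (Cl.base ?_) ih
    split_ifs
    · simp
    · simp

/-- non-negative combinations -/
def Cone [Fintype ι] (a : ι → E) : Set E := {u | ∃ x : ι → ℝ, (∀ i, 0 ≤ x i) ∧ u = ∑ i, x i • a i}

theorem cone_comb [Fintype ι] {u v : E} (hu : u ∈ Cone a) (hv : v ∈ Cone a) {x y : ℝ} (hx : 0 ≤ x)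
    (hy : 0 ≤ y) : x • u + y • v ∈ Cone a := by
  obtain ⟨p, hp, rfl⟩ := hu
  obtain ⟨q, hq, rfl⟩ := hv
  refine ⟨fun i => x * p i + y * q i, fun i => by
    have := mul_nonneg hx (hp i)
    have := mul_nonneg hy (hq i)
    linarith, ?_⟩
  rw [Finset.smul_sum, Finset.smul_sum, ← Finset.sum_add_distrib]
  refine Finset.sum_congr rfl fun i _ => ?_
  module

theorem cone_simple [Fintype ι] [DecidableEq ι] (i : ι) : a i ∈ Cone a := by
  refine ⟨fun j => if j = i then 1 else 0, fun j => by
    show (0 : ℝ) ≤ if j = i then 1 else 0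
    split_ifs <;> norm_num, ?_⟩
  simp

include hs h1 in
/-- Tits' argument -/
theorem tits [Fintype ι] [DecidableEq ι]
    (hind : ∀ i j, i ≠ j → ∀ x y : ℝ, x • a i + y • a j = 0 → x = 0 ∧ y = 0)
    (hcan : ∀ i j, i ≠ j → ∀ u, Cl B {a i, a j} u → ∃ x y : ℝ, u = x • a i + y • a j ∧
      (0 ≤ x ∧ 0 ≤ y ∨ x ≤ 0 ∧ y ≤ 0)) :
    ∀ n : ℕ, ∀ W : List ι, len B a (act B a W) = n → ∀ s : ι,
      len B a (act B a W) ≤ len B a (act B a W * R B (a s)) → act B a W (a s) ∈ Cone a := by
  intro n
  induction n using Nat.strong_induction_on with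
  | _ n ih =>
    intro W hn s hle
    -- a reduced word
    obtain ⟨W0, hW0, hl0⟩ := exists_red (B := B) a W
    rw [← hW0]
    rw [← hW0] at hn hle hl0
    rcases List.eq_nil_or_concat W0 with hnil | ⟨V0, t, hV0⟩
    · rw [hnil, act_nil, Module.End.one_apply]
      exact cone_simple a s
    rw [List.concat_eq_append] at hV0
    have hlen0 : W0.length = V0.length + 1 := by
      rw [hV0, List.length_append]
      rfl
    have hst : s ≠ t := by
      rintro rfl
      have e : act B a W0 * R B (a s) = act B a V0 := by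
        rw [hV0, act_append, act_single, mul_assoc, R_sq (h1 s), mul_one]
      rw [e] at hle
      have := len_le (B := B) a V0
      omega
    -- the maximal decomposition
    let P : ℕ → Prop := fun k => 1 ≤ k ∧ ∃ V : List ι, act B a W0 = act B a V * act B a (al s t k) ∧
      len B a (act B a W0) = len B a (act B a V) + k
    have hP1 : P 1 := by
      refine ⟨le_rfl, V0, ?_, ?_⟩
      · rw [hV0, act_append]
        rfl
      · have h2 := len_le (B := B) a V0
        have h3 := len_mul_le (B := B) a V0 [t]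
        rw [← act_append, ← hV0] at h3
        simp only [List.length_singleton] at h3
        omega
    have hPb : ∀ k, P k → k ≤ len B a (act B a W0) := by
      rintro k ⟨-, v, -, h2⟩
      omega
    classical
    obtain ⟨k, ⟨hk1, V, hwv, hlv⟩, hmax⟩ : ∃ k, P k ∧ ∀ j, P j → j ≤ k := by
      refine ⟨Nat.findGreatest P (len B a (act B a W0)), Nat.findGreatest_spec (hPb 1 hP1) hP1,
        fun j hj => ?_⟩
      exact Nat.le_findGreatest (hPb j hj) hj
    obtain ⟨k, rfl⟩ : ∃ k', k = k' + 1 := ⟨k - 1, by omega⟩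
    -- the next letter
    have hq : len B a (act B a V) ≤
        len B a (act B a V * R B (a (if Even (k + 1) then t else s))) := by
      by_contra hcon
      rw [not_le] at hcon
      have e : act B a V * R B (a (if Even (k + 1) then t else s)) =
          act B a (V ++ [if Even (k + 1) then t else s]) := by
        rw [act_append, act_single]
      have e2 : act B a W0 = act B a (V ++ [if Even (k + 1) then t else s]) *
          act B a (al s t (k + 1 + 1)) := by
        rw [al, act_cons, ← e, mul_assoc, ← mul_assoc (R B _) (R B _), R_sq (h1 _), one_mul, hwv]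
      have h3 := len_mul_le (B := B) a (V ++ [if Even (k + 1) then t else s]) (al s t (k + 1 + 1))
      rw [← e2, al_length] at h3
      rw [e] at hcon
      have h4 := hmax (k + 1 + 1) ⟨by omega, V ++ [if Even (k + 1) then t else s], e2, by omega⟩
      omega
    -- the first letter
    have hp : len B a (act B a V) ≤
        len B a (act B a V * R B (a (if Even k then t else s))) := by
      by_contra hcon
      rw [not_le] at hcon
      have e : act B a V * R B (a (if Even k then t else s)) =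
          act B a (V ++ [if Even k then t else s]) := by
        rw [act_append, act_single]
      have e2 : act B a W0 = act B a (V ++ [if Even k then t else s]) * act B a (al s t k) := by
        rw [hwv, al, act_cons, ← e, mul_assoc]
      have h3 := len_mul_le (B := B) a (V ++ [if Even k then t else s]) (al s t k)
      rw [← e2, al_length] at h3
      rw [e] at hcon
      omega
    have hvs : act B a V (a s) ∈ Cone a ∧ act B a V (a t) ∈ Cone a := by
      have hv : len B a (act B a V) < n := by omega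
      by_cases hk : Even k
      · have hk' : ¬ Even (k + 1) := by
          rw [Nat.even_add_one]
          exact not_not.2 hk
        rw [if_neg hk'] at hq
        rw [if_pos hk] at hp
        exact ⟨ih _ hv V rfl s hq, ih _ hv V rfl t hp⟩
      · have hk' : Even (k + 1) := by
          rw [Nat.even_add_one]
          exact hk
        rw [if_pos hk'] at hq
        rw [if_neg hk] at hp
        exact ⟨ih _ hv V rfl s hp, ih _ hv V rfl t hq⟩
    -- the sign in rank two
    obtain ⟨x, y, hxy, hsgn⟩ := hcan s t hst _ (al_cl (B := B) a s t (k + 1))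
    rcases hsgn with ⟨hx, hy⟩ | ⟨hx, hy⟩
    · rw [hwv, Module.End.mul_apply, hxy, map_add, map_smul, map_smul]
      exact cone_comb a hvs.1 hvs.2 hx hy
    exfalso
    let Q : ℕ → Prop := fun j => ∃ x y : ℝ, act B a (al s t j) (a s) = x • a s + y • a t ∧
      x ≤ 0 ∧ y ≤ 0
    have hQ : Q (k + 1) := ⟨x, y, hxy, hx, hy⟩
    have hQ0 : ¬ Q 0 := by
      rintro ⟨x, y, hxy, hx, hy⟩
      rw [al, act_nil, Module.End.one_apply] at hxy
      have h2 := hind s t hst (x - 1) y (by
        rw [sub_smul, one_smul]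
        nth_rewrite 2 [hxy]
        abel)
      linarith [h2.1]
    have hex : ∃ j, Q j := ⟨k + 1, hQ⟩
    obtain ⟨j, hj⟩ : ∃ j, Nat.find hex = j + 1 := by
      refine ⟨Nat.find hex - 1, ?_⟩
      have : Nat.find hex ≠ 0 := fun h0 => hQ0 (h0 ▸ Nat.find_spec hex)
      omega
    have hQj : Q (j + 1) := hj ▸ Nat.find_spec hex
    have hQj' : ¬ Q j := Nat.find_min hex (by omega)
    have hjk : j + 1 ≤ k + 1 := hj ▸ Nat.find_min' hex hQ
    obtain ⟨x1, y1, e1, hs1⟩ := hcan s t hst _ (al_cl (B := B) a s t j)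
    have hs1' : 0 ≤ x1 ∧ 0 ≤ y1 := by
      rcases hs1 with h2 | h2
      · exact h2
      · exact absurd ⟨x1, y1, e1, h2.1, h2.2⟩ hQj'
    obtain ⟨x2, y2, e2, hx2, hy2⟩ := hQj
    set p : ι := if Even j then t else s with hpdef
    have e3 : act B a (al s t (j + 1)) (a s) = R B (a p) (act B a (al s t j) (a s)) := by
      rw [al, act_cons, Module.End.mul_apply]
    have hnorm : B (act B a (al s t j) (a s)) (act B a (al s t j) (a s)) = 1 := by
      rw [act_iso hs a h1, h1]
    have hfix : act B a (al s t j) (a s) = a p := by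
      rw [e2, R_apply, e1] at e3
      by_cases hj2 : Even j
      · have hpt : p = t := if_pos hj2
        rw [hpt] at e3 ⊢
        have h2 := hind s t hst (x2 - x1) (y2 - (y1 - 2 * B (a t) (x1 • a s + y1 • a t))) (by
          have e4 : x2 • a s + y2 • a t - (x1 • a s + y1 • a t -
            (2 * B (a t) (x1 • a s + y1 • a t)) • a t) = 0 := sub_eq_zero.2 e3
          rw [← e4]
          module)
        have hx1 : x1 = 0 := by linarith [h2.1, hs1'.1]
        rw [e1, hx1, zero_smul, zero_add] at hnorm ⊢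
        simp only [map_smul, LinearMap.smul_apply, smul_eq_mul, h1, mul_one] at hnorm
        have hy1 : y1 = 1 := by nlinarith [hs1'.2]
        rw [hy1, one_smul]
      · have hps : p = s := if_neg hj2
        rw [hps] at e3 ⊢
        have h2 := hind s t hst (x2 - (x1 - 2 * B (a s) (x1 • a s + y1 • a t))) (y2 - y1) (by
          have e4 : x2 • a s + y2 • a t - (x1 • a s + y1 • a t -
            (2 * B (a s) (x1 • a s + y1 • a t)) • a s) = 0 := sub_eq_zero.2 e3
          rw [← e4]
          module)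
        have hy1 : y1 = 0 := by linarith [h2.2, hs1'.2]
        rw [e1, hy1, zero_smul, add_zero] at hnorm ⊢
        simp only [map_smul, LinearMap.smul_apply, smul_eq_mul, h1, mul_one] at hnorm
        have hx1 : x1 = 1 := by nlinarith [hs1'.1]
        rw [hx1, one_smul]
    have hcomm := R_conj hs a h1 (al s t j) (a s)
    rw [hfix] at hcomm
    have hal : act B a (al s t (j + 1)) = act B a (al s t j) * R B (a s) := by
      rw [al, act_cons]
      exact hcomm
    obtain ⟨L, hL, hL2⟩ := al_split s t (j + 1) (k - j)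
    have e5 : j + 1 + (k - j) = k + 1 := by omega
    rw [e5] at hL2
    have e6 : act B a W0 * R B (a s) = act B a V * act B a (L ++ al s t j) := by
      rw [hwv, hL2, act_append, act_append, hal, mul_assoc, mul_assoc, mul_assoc, R_sq (h1 s), mul_one]
    rw [e6] at hle
    have h7 := len_mul_le (B := B) a V (L ++ al s t j)
    rw [List.length_append, hL, al_length] at h7
    omega


include h1 in
theorem cl_act (hs : ∀ u v, B u v = B v u) (u : E) (hu : Cl B (range a) u) :
    ∃ (L : List ι) (s : ι), u = act B a L (a s) := by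
  have hs' := hs
  induction hu with
  | base hu =>
    obtain ⟨i, rfl⟩ := hu
    exact ⟨[], i, rfl⟩
  | neg _ ih =>
    obtain ⟨L, s, rfl⟩ := ih
    refine ⟨L ++ [s], s, ?_⟩
    rw [act_append, act_single, Module.End.mul_apply, R_self (h1 s), map_neg]
  | refl _ _ ih1 ih2 =>
    obtain ⟨L, s, rfl⟩ := ih1
    obtain ⟨M, t, rfl⟩ := ih2
    refine ⟨L ++ ([s] ++ (L.reverse ++ M)), t, ?_⟩
    rw [← R_rf, act_append, act_append, act_append, act_single, ← mul_assoc, ← R_conj hs' a h1, mul_assoc,
      ← mul_assoc (act B a L), (act_rev a h1 L).1, one_mul, Module.End.mul_apply]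

include hs h1 in
theorem signs [Fintype ι] [DecidableEq ι]
    (hind : ∀ i j, i ≠ j → ∀ x y : ℝ, x • a i + y • a j = 0 → x = 0 ∧ y = 0)
    (hcan : ∀ i j, i ≠ j → ∀ u, Cl B {a i, a j} u → ∃ x y : ℝ, u = x • a i + y • a j ∧
      (0 ≤ x ∧ 0 ≤ y ∨ x ≤ 0 ∧ y ≤ 0)) (u : E) (hu : Cl B (range a) u) :
    u ∈ Cone a ∨ -u ∈ Cone a := by
  obtain ⟨L, s, rfl⟩ := cl_act a h1 hs u hu
  by_cases hle : len B a (act B a L) ≤ len B a (act B a L * R B (a s))
  · exact Or.inl (tits hs a h1 hind hcan _ L rfl s hle)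
  · right
    rw [not_le] at hle
    have e : act B a (L ++ [s]) = act B a L * R B (a s) := by rw [act_append, act_single]
    have e2 : act B a (L ++ [s]) * R B (a s) = act B a L := by
      rw [e, mul_assoc, R_sq (h1 s), mul_one]
    have h2 := tits hs a h1 hind hcan _ (L ++ [s]) rfl s (by rw [e2, e]; exact hle.le)
    rw [e, Module.End.mul_apply, R_self (h1 s), map_neg] at h2
    exact h2

end

theorem z1_add {x y : ℝ} (hx : Z1 x) (hy : 0 ≤ y) (h : x = 0 → Z1 y) : Z1 (x + y) := by
  rcases hx with rfl | hx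
  · rw [zero_add]
    exact h rfl
  · right
    linarith

theorem z1_nonneg {x : ℝ} (hx : Z1 x) : 0 ≤ x := by
  rcases hx with rfl | hx
  · exact le_rfl
  · linarith

theorem z1_mul {x y : ℝ} (hx : Z1 x) (hy : Z1 y) : Z1 (x * y) := by
  rcases hx with rfl | hx
  · exact Or.inl (zero_mul y)
  · rcases hy with rfl | hy
    · exact Or.inl (mul_zero x)
    · right
      nlinarith

theorem z1_comb {x y p q : ℝ} (hx : Z1 x) (hy : Z1 y) (hp : Z1 p) (hq : Z1 q) :
    Z1 (x * p + y * q) :=
  z1_add (z1_mul hx hp) (z1_nonneg (z1_mul hy hq)) fun _ => z1_mul hy hq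

/-- one step of the induction: the coefficients of `u = α a + β b + γ c` with `0 < B a u` -/
theorem step {Ψ : Set E} {B : E →ₗ[ℝ] E →ₗ[ℝ] ℝ} {ρ : E →ₗ[ℝ] ℝ} {a b c : E} (h1 : B a a = 1) (hρa : 0 < ρ a)
    (hi : ∀ α β γ : ℝ, α • a + β • b + γ • c = 0 → α = 0 ∧ β = 0 ∧ γ = 0)
    (hab : Z1 (-2 * B a b)) (hac : Z1 (-2 * B a c))
    (hone : ∀ u ∈ Ψ, B u u = 1)
    (hrefl : ∀ u ∈ Ψ, rf B a u ∈ Ψ)
    (hcone : ∀ u ∈ Ψ, (∃ α β γ : ℝ, 0 ≤ α ∧ 0 ≤ β ∧ 0 ≤ γ ∧ u = α • a + β • b + γ • c) ∨
      (∃ α β γ : ℝ, 0 ≤ α ∧ 0 ≤ β ∧ 0 ≤ γ ∧ -u = α • a + β • b + γ • c))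
    {u : E} (hu : u ∈ Ψ) {α β γ : ℝ} (hα : 0 ≤ α) (hβ : 0 ≤ β) (hγ : 0 ≤ γ)
    (eu : u = α • a + β • b + γ • c) (hB : 0 < B a u)
    (ih : ∀ v ∈ Ψ, ρ v < ρ u → ∀ α' β' γ' : ℝ, 0 ≤ α' → 0 ≤ β' → 0 ≤ γ' →
      v = α' • a + β' • b + γ' • c → Z1 α' ∧ Z1 β' ∧ Z1 γ') :
    Z1 α ∧ Z1 β ∧ Z1 γ := by
  have hv := hrefl u hu
  have ev : rf B a u = (α - 2 * B a u) • a + β • b + γ • c := by
    unfold rf
    nth_rewrite 1 [eu]
    module
  have huniq : ∀ p q r p' q' r' : ℝ, p • a + q • b + r • c = p' • a + q' • b + r' • c →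
      p = p' ∧ q = q' ∧ r = r' := by
    intro p q r p' q' r' e
    have h2 := hi (p - p') (q - q') (r - r') (by
      rw [← sub_eq_zero] at e
      rw [← e]
      module)
    exact ⟨by linarith [h2.1], by linarith [h2.2.1], by linarith [h2.2.2]⟩
  rcases hcone _ hv with ⟨p, q, r, hp, hq, hr, e⟩ | ⟨p, q, r, hp, hq, hr, e⟩
  · obtain ⟨e1, e2, e3⟩ := huniq _ _ _ _ _ _ (ev.symm.trans e)
    have hlt : ρ (rf B a u) < ρ u := by
      unfold rf
      rw [map_sub, map_smul, smul_eq_mul]
      have := mul_pos (mul_pos two_pos hB) hρa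
      linarith
    obtain ⟨i1, i2, i3⟩ := ih _ hv hlt p q r hp hq hr e
    have hα' : Z1 α := by
      have : α = p + 2 * B a u := by linarith
      rw [this]
      refine z1_add i1 (by linarith) fun hp0 => ?_
      have e4 : 2 * B a u = q * (-2 * B a b) + r * (-2 * B a c) := by
        have e5 : B a (rf B a u) = -B a u := by
          unfold rf
          rw [map_sub, map_smul, h1, smul_eq_mul]
          ring
        rw [e, hp0, zero_smul, zero_add, map_add, map_smul, map_smul, smul_eq_mul, smul_eq_mul] at e5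
        linarith
      rw [e4]
      exact z1_comb i2 i3 hab hac
    rw [e2, e3]
    exact ⟨hα', i2, i3⟩
  · have e' : rf B a u = (-p) • a + (-q) • b + (-r) • c := by
      rw [← neg_neg (rf B a u), e]
      module
    obtain ⟨e1, e2, e3⟩ := huniq _ _ _ _ _ _ (ev.symm.trans e')
    have hβ0 : β = 0 := by linarith
    have hγ0 : γ = 0 := by linarith
    have hu1 := hone u hu
    rw [eu, hβ0, hγ0, zero_smul, zero_smul, add_zero, add_zero] at hu1
    simp only [map_smul, LinearMap.smul_apply, smul_eq_mul, h1, mul_one] at hu1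
    have hα1 : α = 1 := by nlinarith
    exact ⟨Or.inr hα1.ge, Or.inl hβ0, Or.inl hγ0⟩

end P

/-- Block [P]: a pairwise canonical independent triple is a simple system of the subsystem it
generates -/
theorem tri_of_canon {Φ : Set E} {B : E →ₗ[ℝ] E →ₗ[ℝ] ℝ} {ρ : E →ₗ[ℝ] ℝ} (h : RS Φ B ρ)
    {a b c : E} (ha : a ∈ Φ) (hb : b ∈ Φ) (hc : c ∈ Φ)
    (hi : ∀ α β γ : ℝ, α • a + β • b + γ • c = 0 → α = 0 ∧ β = 0 ∧ γ = 0)
    (hab : Canon {u | Cl B {a, b} u} a b) (hac : Canon {u | Cl B {a, c} u} a c)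
    (hbc : Canon {u | Cl B {b, c} u} b c) : Tri {u | Cl B {a, b, c} u} B a b c := by
  classical
  have hs := h.symm
  have h1a := h.one a ha
  have h1b := h.one b hb
  have h1c := h.one c hc
  -- a general remark on rank two
  have hspan : ∀ x y : E, ∀ u, Cl B {x, y} u → ∃ p q : ℝ, u = p • x + q • y := by
    intro x y u hu
    induction hu with
    | base hu =>
      rcases hu with rfl | hu
      · exact ⟨1, 0, by module⟩
      · rw [mem_singleton_iff] at hu
        exact ⟨0, 1, by rw [hu]; module⟩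
    | neg _ ih =>
      obtain ⟨p, q, e⟩ := ih
      exact ⟨-p, -q, by rw [e]; module⟩
    | refl _ _ ih1 ih2 =>
      obtain ⟨p, q, e⟩ := ih1
      obtain ⟨p', q', e'⟩ := ih2
      rename_i u v _ _
      refine ⟨p' - 2 * B u v * p, q' - 2 * B u v * q, ?_⟩
      unfold rf
      nth_rewrite 1 [e']
      nth_rewrite 2 [e]
      module
  have hsg : ∀ x y : E, Canon {u | Cl B {x, y} u} x y → ∀ u, Cl B {x, y} u →
      ∃ p q : ℝ, u = p • x + q • y ∧ (0 ≤ p ∧ 0 ≤ q ∨ p ≤ 0 ∧ q ≤ 0) := by
    intro x y hxy u hu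
    obtain ⟨p, q, e⟩ := hspan x y u hu
    refine ⟨p, q, e, ?_⟩
    rcases hxy u hu p q e with (⟨h2, h3⟩ | ⟨h2, h3⟩ | ⟨h2, h3⟩) | (⟨h2, h3⟩ | ⟨h2, h3⟩ | ⟨h2, h3⟩)
    · left; constructor <;> linarith
    · left; constructor <;> linarith
    · left; constructor <;> linarith
    · right; constructor <;> linarith
    · right; constructor <;> linarith
    · right; constructor <;> linarith
  have hsg' : ∀ x y : E, Canon {u | Cl B {x, y} u} x y → ∀ u, Cl B {y, x} u →
      ∃ p q : ℝ, u = p • y + q • x ∧ (0 ≤ p ∧ 0 ≤ q ∨ p ≤ 0 ∧ q ≤ 0) := by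
    intro x y hxy u hu
    rw [Set.pair_comm] at hu
    obtain ⟨p, q, e, h2⟩ := hsg x y hxy u hu
    refine ⟨q, p, by rw [e, add_comm], ?_⟩
    rcases h2 with h2 | h2
    · exact Or.inl ⟨h2.2, h2.1⟩
    · exact Or.inr ⟨h2.2, h2.1⟩
  have hz : ∀ x y : E, Canon {u | Cl B {x, y} u} x y → Z1 (-2 * B x y) := by
    intro x y hxy
    have hm : Cl B {x, y} (rf B x y) :=
      Cl.refl (Cl.base (Or.inl rfl)) (Cl.base (Or.inr rfl))
    rcases hxy _ hm (-2 * B x y) 1 (by unfold rf; module) with
      (⟨h2, h3⟩ | ⟨h2, h3⟩ | ⟨h2, h3⟩) | (⟨h2, h3⟩ | ⟨h2, h3⟩ | ⟨h2, h3⟩)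
    · exact Or.inl h2
    · exfalso; linarith
    · exact Or.inr h2
    · exfalso; linarith
    · exfalso; linarith
    · exfalso; linarith
  -- the family
  let f : Fin 3 → E := ![a, b, c]
  have hf1 : ∀ i, B (f i) (f i) = 1 := by
    intro i
    fin_cases i
    · exact h1a
    · exact h1b
    · exact h1c
  have hrange : range f = {a, b, c} := by
    ext x
    constructor
    · rintro ⟨i, rfl⟩
      fin_cases i
      · exact Or.inl rfl
      · exact Or.inr (Or.inl rfl)
      · exact Or.inr (Or.inr rfl)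
    · rintro (rfl | rfl | hx)
      · exact ⟨0, rfl⟩
      · exact ⟨1, rfl⟩
      · rw [mem_singleton_iff] at hx
        exact ⟨2, hx.symm⟩
  have hind : ∀ i j, i ≠ j → ∀ x y : ℝ, x • f i + y • f j = 0 → x = 0 ∧ y = 0 := by
    intro i j hij x y e
    fin_cases i <;> fin_cases j
    · exact absurd rfl hij
    · have h2 := hi x y 0 (by rw [← e]; show x • a + y • b + (0 : ℝ) • c = x • a + y • b; module)
      exact ⟨h2.1, h2.2.1⟩
    · have h2 := hi x 0 y (by rw [← e]; show x • a + (0 : ℝ) • b + y • c = x • a + y • c; module)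
      exact ⟨h2.1, h2.2.2⟩
    · have h2 := hi y x 0 (by rw [← e]; show y • a + x • b + (0 : ℝ) • c = x • b + y • a; module)
      exact ⟨h2.2.1, h2.1⟩
    · exact absurd rfl hij
    · have h2 := hi 0 x y (by rw [← e]; show (0 : ℝ) • a + x • b + y • c = x • b + y • c; module)
      exact ⟨h2.2.1, h2.2.2⟩
    · have h2 := hi y 0 x (by rw [← e]; show y • a + (0 : ℝ) • b + x • c = x • c + y • a; module)
      exact ⟨h2.2.2, h2.1⟩
    · have h2 := hi 0 y x (by rw [← e]; show (0 : ℝ) • a + y • b + x • c = x • c + y • b; module)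
      exact ⟨h2.2.2, h2.2.1⟩
    · exact absurd rfl hij
  have hcan : ∀ i j, i ≠ j → ∀ u, Cl B {f i, f j} u → ∃ x y : ℝ, u = x • f i + y • f j ∧
      (0 ≤ x ∧ 0 ≤ y ∨ x ≤ 0 ∧ y ≤ 0) := by
    intro i j hij u hu
    fin_cases i <;> fin_cases j
    · exact absurd rfl hij
    · exact hsg a b hab u hu
    · exact hsg a c hac u hu
    · exact hsg' a b hab u hu
    · exact absurd rfl hij
    · exact hsg b c hbc u hu
    · exact hsg' a c hac u hu
    · exact hsg' b c hbc u hu
    · exact absurd rfl hij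
  have hcone : ∀ u, Cl B {a, b, c} u →
      (∃ α β γ : ℝ, 0 ≤ α ∧ 0 ≤ β ∧ 0 ≤ γ ∧ u = α • a + β • b + γ • c) ∨
      (∃ α β γ : ℝ, 0 ≤ α ∧ 0 ≤ β ∧ 0 ≤ γ ∧ -u = α • a + β • b + γ • c) := by
    intro u hu
    rw [← hrange] at hu
    rcases P.signs hs f hf1 hind hcan u hu with ⟨x, hx, e⟩ | ⟨x, hx, e⟩
    · left
      refine ⟨x 0, x 1, x 2, hx 0, hx 1, hx 2, ?_⟩
      rw [e, Fin.sum_univ_three]
      rfl
    · right
      refine ⟨x 0, x 1, x 2, hx 0, hx 1, hx 2, ?_⟩
      rw [e, Fin.sum_univ_three]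
      rfl
  have hmem : ∀ u, Cl B {a, b, c} u → u ∈ Φ ∨ -u ∈ Φ := by
    intro u hu
    induction hu with
    | base hu =>
      rcases hu with rfl | rfl | hu
      · exact Or.inl ha
      · exact Or.inl hb
      · rw [mem_singleton_iff] at hu
        rw [hu]
        exact Or.inl hc
    | neg _ ih =>
      rcases ih with ih | ih
      · exact Or.inr (by rwa [neg_neg])
      · exact Or.inl ih
    | refl _ _ ih1 ih2 =>
      rename_i u v _ _
      have e1 : ∀ z, rf B (-u) z = rf B u z := by
        intro z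
        unfold rf
        rw [map_neg, LinearMap.neg_apply]
        module
      have e2 : rf B u (-v) = -rf B u v := by
        unfold rf
        rw [map_neg]
        module
      rcases ih1 with ih1 | ih1 <;> rcases ih2 with ih2 | ih2
      · exact h.refl _ ih1 _ ih2
      · have h2 := h.refl _ ih1 _ ih2
        rw [e2, neg_neg] at h2
        exact h2.symm
      · have h2 := h.refl _ ih1 _ ih2
        rw [e1] at h2
        exact h2
      · have h2 := h.refl _ ih1 _ ih2
        rw [e1, e2, neg_neg] at h2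
        exact h2.symm
  have hone : ∀ u, Cl B {a, b, c} u → B u u = 1 := by
    intro u hu
    rcases hmem u hu with h2 | h2
    · exact h.one u h2
    · have h3 := h.one _ h2
      simp only [map_neg, LinearMap.neg_apply, neg_neg] at h3
      exact h3
  have hρa := h.pos a ha
  have hρb := h.pos b hb
  have hρc := h.pos c hc
  have hne : ∀ u, Cl B {a, b, c} u → u ≠ 0 := by
    rintro u hu rfl
    have := hone 0 hu
    rw [map_zero] at this
    exact zero_ne_one this
  -- a non-negative root is in `Φ`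
  have hposΦ : ∀ u, Cl B {a, b, c} u → ∀ α β γ : ℝ, 0 ≤ α → 0 ≤ β → 0 ≤ γ →
      u = α • a + β • b + γ • c → u ∈ Φ := by
    intro u hu α β γ hα hβ hγ e
    rcases hmem u hu with h2 | h2
    · exact h2
    · exfalso
      have h3 := h.pos _ h2
      rw [map_neg, e, map_add, map_add, map_smul, map_smul, map_smul, smul_eq_mul, smul_eq_mul,
        smul_eq_mul] at h3
      have := mul_nonneg hα hρa.le
      have := mul_nonneg hβ hρb.le
      have := mul_nonneg hγ hρc.le
      linarith
  have hmain : ∀ n : ℕ, ∀ u, Cl B {a, b, c} u → (ball Φ ρ (ρ u)).ncard = n → ∀ α β γ : ℝ, 0 ≤ α →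
      0 ≤ β → 0 ≤ γ → u = α • a + β • b + γ • c → Z1 α ∧ Z1 β ∧ Z1 γ := by
    intro n
    induction n using Nat.strong_induction_on with
    | _ n ih =>
      intro u hu hn α β γ hα hβ hγ e
      have hur : u ∈ Φ := hposΦ u hu α β γ hα hβ hγ e
      have ih' : ∀ v, Cl B {a, b, c} v → ρ v < ρ u → ∀ α' β' γ' : ℝ, 0 ≤ α' → 0 ≤ β' → 0 ≤ γ' →
          v = α' • a + β' • b + γ' • c → Z1 α' ∧ Z1 β' ∧ Z1 γ' := by
        intro v hv hlt
        refine ih _ ?_ v hv rfl
        rw [← hn]
        refine Set.ncard_lt_ncard ⟨fun z hz => ⟨hz.1, hz.2.trans hlt.le⟩, fun hsub => ?_⟩ (h.fin _)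
        have := (hsub (⟨hur, le_rfl⟩ : u ∈ ball Φ ρ (ρ u))).2
        linarith
      have hsum : α * B a u + β * B b u + γ * B c u = 1 := by
        have h2 := hone u hu
        nth_rewrite 1 [e] at h2
        simp only [map_add, map_smul, LinearMap.add_apply, LinearMap.smul_apply, smul_eq_mul] at h2
        exact h2
      have hreflx : ∀ x, x ∈ ({a, b, c} : Set E) → ∀ u, Cl B {a, b, c} u → Cl B {a, b, c} (rf B x u) :=
        fun x hx u hu => Cl.refl (Cl.base hx) hu
      by_cases c1 : 0 < B a u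
      · exact P.step (Ψ := {u | Cl B {a, b, c} u}) h1a hρa hi (hz a b hab) (hz a c hac) hone
          (hreflx a (by simp)) hcone hu hα hβ hγ e c1 ih'
      by_cases c2 : 0 < B b u
      · have h2 := P.step (Ψ := {u | Cl B {a, b, c} u}) (a := b) (b := a) (c := c) h1b hρb
          (fun p q r e2 => by
            have h3 := hi q p r (by rw [← e2]; module)
            exact ⟨h3.2.1, h3.1, h3.2.2⟩) (by rw [hs]; exact hz a b hab) (hz b c hbc) hone
          (hreflx b (by simp))
          (fun v hv => by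
            rcases hcone v hv with ⟨p, q, r, hp, hq, hr, e2⟩ | ⟨p, q, r, hp, hq, hr, e2⟩
            · exact Or.inl ⟨q, p, r, hq, hp, hr, by rw [e2]; module⟩
            · exact Or.inr ⟨q, p, r, hq, hp, hr, by rw [e2]; module⟩)
          hu hβ hα hγ (by rw [e]; module) c2
          (fun v hv hlt α' β' γ' h3 h4 h5 e2 => by
            have h6 := ih' v hv hlt β' α' γ' h4 h3 h5 (by rw [e2]; module)
            exact ⟨h6.2.1, h6.1, h6.2.2⟩)
        exact ⟨h2.2.1, h2.1, h2.2.2⟩
      have c3 : 0 < B c u := by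
        by_contra c3
        have := mul_nonpos_of_nonneg_of_nonpos hα (not_lt.1 c1)
        have := mul_nonpos_of_nonneg_of_nonpos hβ (not_lt.1 c2)
        have := mul_nonpos_of_nonneg_of_nonpos hγ (not_lt.1 c3)
        linarith
      have h2 := P.step (Ψ := {u | Cl B {a, b, c} u}) (a := c) (b := a) (c := b) h1c hρc
        (fun p q r e2 => by
          have h3 := hi q r p (by rw [← e2]; module)
          exact ⟨h3.2.2, h3.1, h3.2.1⟩) (by rw [hs]; exact hz a c hac) (by rw [hs]; exact hz b c hbc) hone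
        (hreflx c (by simp))
        (fun v hv => by
          rcases hcone v hv with ⟨p, q, r, hp, hq, hr, e2⟩ | ⟨p, q, r, hp, hq, hr, e2⟩
          · exact Or.inl ⟨r, p, q, hr, hp, hq, by rw [e2]; module⟩
          · exact Or.inr ⟨r, p, q, hr, hp, hq, by rw [e2]; module⟩)
        hu hγ hα hβ (by rw [e]; module) c3
        (fun v hv hlt α' β' γ' h3 h4 h5 e2 => by
          have h6 := ih' v hv hlt β' γ' α' h4 h5 h3 (by rw [e2]; module)
          exact ⟨h6.2.2, h6.1, h6.2.1⟩)
      exact ⟨h2.2.1, h2.2.2, h2.1⟩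
  have hC : ∀ u, u ∈ C01 a b c → Cl B {a, b, c} u → u ∈ Φ := by
    rintro u ⟨α, β, γ, e, hα, hβ, hγ⟩ hu
    exact hposΦ u hu α β γ (P.z1_nonneg hα) (P.z1_nonneg hβ) (P.z1_nonneg hγ) e
  refine ⟨hs, hone, fun u hu => Cl.neg hu, fun u hu v hv => Cl.refl hu hv, Cl.base (by simp),
    Cl.base (by simp), Cl.base (by simp), hi, ?_, ?_, ?_⟩
  · intro u hu
    rcases hcone u hu with ⟨α, β, γ, hα, hβ, hγ, e⟩ | ⟨α, β, γ, hα, hβ, hγ, e⟩
    · left
      obtain ⟨z1, z2, z3⟩ := hmain _ u hu rfl α β γ hα hβ hγ e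
      exact ⟨α, β, γ, e, z1, z2, z3⟩
    · right
      obtain ⟨z1, z2, z3⟩ := hmain _ (-u) (Cl.neg hu) rfl α β γ hα hβ hγ e
      exact ⟨α, β, γ, e, z1, z2, z3⟩
  · intro r
    refine (h.fin (r * (ρ a + ρ b + ρ c))).subset ?_
    rintro u ⟨hu, α, β, γ, e, hα, hβ, hγ, hr⟩
    refine ⟨hposΦ u hu α β γ hα hβ hγ e, ?_⟩
    rw [e, map_add, map_add, map_smul, map_smul, map_smul, smul_eq_mul, smul_eq_mul, smul_eq_mul]
    have g1 := mul_nonneg hα (add_nonneg hρb.le hρc.le)
    have g2 := mul_nonneg hβ (add_nonneg hρa.le hρc.le)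
    have g3 := mul_nonneg hγ (add_nonneg hρa.le hρb.le)
    have g4 := mul_le_mul_of_nonneg_right hr (add_nonneg (add_nonneg hρa.le hρb.le) hρc.le)
    nlinarith
  · intro u hu
    have e1 : ∀ v, rf B (-u) v = rf B u v := by
      intro v
      unfold rf
      rw [map_neg, LinearMap.neg_apply]
      module
    have key : ∀ w, w ∈ Φ → (∀ v, rf B w v = rf B u v) →
        {v | v ∈ {u | Cl B {a, b, c} u} ∧ v ∈ C01 a b c ∧ -rf B u v ∈ C01 a b c}.Finite := by
      intro w hw hwv
      refine (h.inv w hw).subset ?_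
      rintro v ⟨hv, hv1, hv2⟩
      refine ⟨hC v hv1 hv, ?_⟩
      rw [hwv]
      exact hC _ hv2 (Cl.neg (Cl.refl hu hv))
    rcases hmem u hu with h2 | h2
    · exact key u h2 fun v => rfl
    · exact key (-u) h2 e1

end DY
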